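import Pool.Agent.W497.FS.Chain

set_option autoImplicit false
set_option linter.unusedSectionVars false

/-!
# Deleting a vertex and some of its neighbours from a flag homology sphere
-/

namespace Pool.Agent.W497.FS

variable {k : Type} [Field k] {α : Type} [LinearOrder α] [Fintype α] {H : SimpleGraph α}

theorem On.mono {X Y : Finset α} {j : ℕ} {c : Finset α → k} (h : On H X j c) (hXY : X ⊆ Y) :
    On H Y j c := fun A hA => ⟨cl_mono hXY (h A hA).1, (h A hA).2⟩

theorem On.eq_zero {X : Finset α} {j : ℕ} {c : Finset α → k} (h : On H X j c) {u : α}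
    {A : Finset α} (hu : u ∉ X) (hA : u ∈ A) : c A = 0 := by
  by_contra hne
  exact hu ((mem_cl.1 (h A hne).1).1 hA)

theorem On.zero {X : Finset α} {j : ℕ} : On H X j (0 : Finset α → k) := fun _ hA => absurd rfl hA

theorem On.add {X : Finset α} {j : ℕ} {b c : Finset α → k} (hb : On H X j b) (hc : On H X j c) :
    On H X j (b + c) := by
  intro A hA
  by_cases h : b A = 0
  · exact hc A (fun h' => hA (by rw [Pi.add_apply, h, h', add_zero]))
  · exact hb A h

theorem On.smul {X : Finset α} {j : ℕ} {c : Finset α → k} (hc : On H X j c) (a : k) :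
    On H X j (a • c) := by
  intro A hA
  exact hc A (fun h' => hA (by rw [Pi.smul_apply, h', smul_zero]))

theorem bd_zero : bd (0 : Finset α → k) = 0 := by
  funext A; simp [bd]

theorem bd_add (b c : Finset α → k) : bd (b + c) = bd b + bd c := by
  funext A
  simp only [bd, Pi.add_apply, mul_add, Finset.sum_add_distrib]

theorem bd_smul (a : k) (c : Finset α → k) : bd (a • c) = a • bd c := by
  funext A
  simp only [bd, Pi.smul_apply, smul_eq_mul, Finset.mul_sum]
  exact Finset.sum_congr rfl (fun v _ => by ring)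

theorem sg_mul_self (v : α) (A : Finset α) : sg k v A * sg k v A = 1 := by
  rw [sg, ← mul_pow]; norm_num

theorem sg_ne_zero (v : α) (A : Finset α) : sg k v A ≠ 0 := by
  intro h
  have := sg_mul_self (k := k) v A
  rw [h, zero_mul] at this
  exact zero_ne_one this

/-- the part of a chain in the link of `u` -/
def lpart (u : α) (c : Finset α → k) : Finset α → k :=
  fun A => if u ∈ A then 0 else sg k u A * c (insert u A)

/-- the part of a chain away from `u` -/
def dpart (u : α) (c : Finset α → k) : Finset α → k := fun A => if u ∈ A then 0 else c A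

theorem lpart_on {X : Finset α} {j : ℕ} {c : Finset α → k} {u : α} (h : On H X (j + 1) c) :
    On H (lk H X u) j (lpart u c) := by
  intro A hA
  rw [lpart] at hA
  split_ifs at hA with hu
  · exact absurd rfl hA
  · have h1 := h (insert u A) (fun h' => hA (by rw [h', mul_zero]))
    rw [Finset.card_insert_of_notMem hu] at h1
    obtain ⟨h2, h3⟩ := mem_cl.1 h1.1
    refine ⟨mem_cl.2 ⟨fun x hx => mem_lk.2 ⟨h2 (Finset.mem_insert_of_mem hx),
      h3 u (Finset.mem_insert_self _ _) x (Finset.mem_insert_of_mem hx) (fun h => hu (h ▸ hx))⟩,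
      fun x hx y hy hxy => h3 x (Finset.mem_insert_of_mem hx) y (Finset.mem_insert_of_mem hy) hxy⟩,
      by omega⟩

theorem dpart_on {X : Finset α} {j : ℕ} {c : Finset α → k} {u : α} (h : On H X j c) :
    On H (X.erase u) j (dpart u c) := by
  intro A hA
  rw [dpart] at hA
  split_ifs at hA with hu
  · exact absurd rfl hA
  · obtain ⟨h1, h2⟩ := h A hA
    refine ⟨mem_cl.2 ⟨fun x hx => Finset.mem_erase.2 ⟨fun h => hu (h ▸ hx), (mem_cl.1 h1).1 hx⟩,
      (mem_cl.1 h1).2⟩, h2⟩

theorem compl_insert_eq (u : α) (A : Finset α) : (insert u A)ᶜ = Aᶜ.erase u := by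
  ext x
  simp only [Finset.mem_compl, Finset.mem_insert, Finset.mem_erase, not_or]

theorem bd_lpart_of_mem {c : Finset α → k} {u : α} {A : Finset α} (hu : u ∈ A) :
    bd (lpart u c) A = 0 := by
  rw [bd]
  refine Finset.sum_eq_zero (fun v _ => ?_)
  rw [lpart, if_pos (Finset.mem_insert_of_mem hu), mul_zero]

theorem bd_dpart_of_mem {c : Finset α → k} {u : α} {A : Finset α} (hu : u ∈ A) :
    bd (dpart u c) A = 0 := by
  rw [bd]
  refine Finset.sum_eq_zero (fun v _ => ?_)
  rw [dpart, if_pos (Finset.mem_insert_of_mem hu), mul_zero]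

theorem bd_lpart {c : Finset α → k} {u : α} {A : Finset α} (hu : u ∉ A) :
    bd (lpart u c) A = -(sg k u A * bd c (insert u A)) := by
  have hu' : u ∈ Aᶜ := Finset.mem_compl.2 hu
  rw [bd, bd, compl_insert_eq, Finset.mul_sum, ← Finset.add_sum_erase _ _ hu', lpart,
    if_pos (Finset.mem_insert_self _ _), mul_zero, zero_add, ← Finset.sum_neg_distrib]
  refine Finset.sum_congr rfl (fun v hv => ?_)
  obtain ⟨hvu, hvA⟩ := Finset.mem_erase.1 hv
  rw [Finset.mem_compl] at hvA
  have h1 : u ∉ insert v A := by
    rw [Finset.mem_insert]; rintro (h | h)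
    · exact hvu h.symm
    · exact hu h
  have h2 := sg_swap (k := k) hvu.symm hu hvA
  rw [lpart, if_neg h1, Finset.insert_comm u v A]
  have h3 : sg k u A * (sg k v (insert u A) * c (insert v (insert u A))) =
      (sg k v (insert u A) * sg k u A) * c (insert v (insert u A)) := by ring
  rw [h3, h2]
  ring

theorem bd_split {c : Finset α → k} {u : α} {A : Finset α} (hu : u ∉ A) :
    bd c A = bd (dpart u c) A + lpart u c A := by
  have hu' : u ∈ Aᶜ := Finset.mem_compl.2 hu
  rw [bd, bd, ← Finset.add_sum_erase _ _ hu', ← Finset.add_sum_erase _ _ hu', dpart,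
    if_pos (Finset.mem_insert_self _ _), mul_zero, zero_add, lpart, if_neg hu, add_comm]
  congr 1
  refine Finset.sum_congr rfl (fun v hv => ?_)
  obtain ⟨hvu, hvA⟩ := Finset.mem_erase.1 hv
  rw [dpart, if_neg]
  rw [Finset.mem_insert]; rintro (h | h)
  · exact hvu h.symm
  · exact hu h

/-- Mayer-Vietoris step -/
theorem Ex.erase {X : Finset α} {u : α} {j : ℕ} (hX : Ex k H X j) (hL : Ex k H (lk H X u) j) :
    Ex k H (X.erase u) j := by
  intro c hc h0
  obtain ⟨b, hb, hbc⟩ := hX c (hc.mono (Finset.erase_subset _ _)) h0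
  have h1 : bd (lpart u b) = 0 := by
    funext A
    by_cases hu : u ∈ A
    · exact bd_lpart_of_mem hu
    · rw [bd_lpart hu, hbc, hc.eq_zero (Finset.notMem_erase u X) (Finset.mem_insert_self u A),
        mul_zero, neg_zero]
      rfl
  obtain ⟨e, he, hbe⟩ := hL _ (lpart_on hb) h1
  have hsub : lk H X u ⊆ X.erase u := fun x hx => Finset.mem_erase.2
    ⟨fun h => not_mem_lk_self (h ▸ hx), lk_subset hx⟩
  refine ⟨dpart u b + e, (dpart_on hb).add (he.mono hsub), ?_⟩
  rw [bd_add, hbe]
  funext A
  rw [Pi.add_apply]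
  by_cases hu : u ∈ A
  · rw [bd_dpart_of_mem hu, hc.eq_zero (Finset.notMem_erase u X) hu, lpart, if_pos hu, add_zero]
  · rw [← bd_split hu, hbc]

/-- facets through a vertex -/
theorem NP.exists_facet_mem {d : ℕ} {W : Finset α} (h : NP H d W) {v : α} (hv : v ∈ W) :
    ∃ β ∈ cl H W, β.card = d ∧ v ∈ β := by
  obtain ⟨e, rfl⟩ := h.rank_pos hv
  obtain ⟨β, hβ, hc, -⟩ := (h.lk hv).exists_facet
  have hv' := singleton_mem_cl (H := H) hv
  have hβ' : β ∈ cl H (FS.lkF H W {v}) := by rw [lkF_singleton]; exact hβ
  refine ⟨{v} ∪ β, union_mem_cl hv' hβ', ?_, ?_⟩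
  · rw [Finset.card_union_of_disjoint (disjoint_of_mem_cl_lkF hβ'), Finset.card_singleton, hc]
    omega
  · exact Finset.mem_union_left _ (Finset.mem_singleton_self v)

theorem lpart_zero_iff {c : Finset α → k} {u : α} (h : lpart u c = 0) {A : Finset α} (hA : u ∈ A) :
    c A = 0 := by
  have h1 := congrFun h (A.erase u)
  rw [lpart, if_neg (Finset.notMem_erase u A), Finset.insert_erase hA, Pi.zero_apply] at h1
  exact (mul_eq_zero.1 h1).resolve_left (sg_ne_zero _ _)

/-- a top-dimensional cycle which vanishes on one facet is zero -/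
theorem top_unique : ∀ (d : ℕ) {W : Finset α}, NP H d W → ∀ z : Finset α → k, On H W d z →
    bd z = 0 → ∀ F ∈ cl H W, F.card = d → z F = 0 → z = 0 := by
  intro d
  induction d with
  | zero =>
    intro W h z hz h0 F hF hc hzF
    funext A
    by_contra hne
    obtain ⟨h1, h2⟩ := hz A hne
    rw [Finset.card_eq_zero] at h2 hc
    rw [h2, ← hc] at hne
    exact hne hzF
  | succ d ih =>
    intro W h z hz h0 F hF hc hzF
    -- the vertices at which z vanishes
    have hstep : ∀ v ∈ W, ∀ G ∈ cl H W, G.card = d + 1 → v ∈ G → z G = 0 →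
        ∀ A, v ∈ A → z A = 0 := by
      intro v hv G hG hGc hvG hzG A hA
      refine lpart_zero_iff (u := v) ?_ hA
      refine ih (h.lk hv) (lpart v z) (lpart_on hz) ?_ (G.erase v) ?_ ?_ ?_
      · funext B
        by_cases hvB : v ∈ B
        · exact bd_lpart_of_mem hvB
        · rw [bd_lpart hvB, h0, Pi.zero_apply, mul_zero, neg_zero]; rfl
      · obtain ⟨h2, h3⟩ := mem_cl.1 hG
        refine mem_cl.2 ⟨fun x hx => mem_lk.2 ⟨h2 (Finset.mem_of_mem_erase hx),
          h3 v hvG x (Finset.mem_of_mem_erase hx) (Finset.ne_of_mem_erase hx).symm⟩,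
          fun x hx y hy hxy => h3 x (Finset.mem_of_mem_erase hx) y (Finset.mem_of_mem_erase hy) hxy⟩
      · rw [Finset.card_erase_of_mem hvG, hGc]; rfl
      · rw [lpart, if_neg (Finset.notMem_erase v G), Finset.insert_erase hvG, hzG, mul_zero]
    have hne : F.Nonempty := Finset.card_pos.1 (by omega)
    obtain ⟨v₀, hv₀⟩ := hne
    have hv₀W := (mem_cl.1 hF).1 hv₀
    have hall : ∀ v ∈ W, ∀ A, v ∈ A → z A = 0 := by
      rcases d with _ | d
      · -- rank one: two points
        obtain ⟨h2, h3⟩ := h
        have hF1 : F = {v₀} := by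
          obtain ⟨a, ha⟩ := Finset.card_eq_one.1 hc
          rw [ha, Finset.mem_singleton] at hv₀
          rw [ha, hv₀]
        obtain ⟨a, b, hab, hW⟩ := Finset.card_eq_two.1 h2
        have hz1 : ∀ v, v ∉ W → z {v} = 0 := fun v hv => by
          by_contra hne
          exact hv ((mem_cl.1 (hz _ hne).1).1 (Finset.mem_singleton_self v))
        have hsum : z {a} + z {b} = 0 := by
          have h5 := congrFun h0 ∅
          rw [bd, Pi.zero_apply] at h5
          have h6 : ∀ v ∈ (∅ : Finset α)ᶜ, sg k v ∅ * z (insert v ∅) = z {v} := by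
            intro v _
            rw [sg]; simp
          rw [Finset.sum_congr rfl h6, Finset.compl_empty] at h5
          rw [← h5, ← Finset.sum_subset (Finset.subset_univ W) (fun v _ hv => hz1 v hv), hW,
            Finset.sum_pair hab]
        have hboth : z {a} = 0 ∧ z {b} = 0 := by
          rw [hF1] at hzF
          rw [hW, Finset.mem_insert, Finset.mem_singleton] at hv₀W
          rcases hv₀W with h | h
          · rw [h] at hzF
            rw [hzF, zero_add] at hsum
            exact ⟨hzF, hsum⟩
          · rw [h] at hzF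
            rw [hzF, add_zero] at hsum
            exact ⟨hsum, hzF⟩
        intro v hv A hA
        by_contra hne
        obtain ⟨h7, h8⟩ := hz A hne
        obtain ⟨q, hq⟩ := Finset.card_eq_one.1 h8
        have hqW := (mem_cl.1 h7).1 (by rw [hq]; exact Finset.mem_singleton_self q)
        rw [hW, Finset.mem_insert, Finset.mem_singleton] at hqW
        rw [hq] at hne
        rcases hqW with h | h
        · rw [h] at hne; exact hne hboth.1
        · rw [h] at hne; exact hne hboth.2
      · -- rank at least two: connectedness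
        classical
        set Y := W.filter (fun v => ∀ A, v ∈ A → z A = 0) with hY
        have hY0 : v₀ ∈ Y := Finset.mem_filter.2 ⟨hv₀W, hstep v₀ hv₀W F hF hc hv₀ hzF⟩
        have hYW : Y = W := by
          by_contra hneq
          obtain ⟨a, ha, b, hb, hbY, hab⟩ := h.2.1 Y (Finset.filter_subset _ _) ⟨v₀, hY0⟩ hneq
          apply hbY
          have haW := (Finset.mem_filter.1 ha).1
          have haz := (Finset.mem_filter.1 ha).2
          refine Finset.mem_filter.2 ⟨hb, ?_⟩
          have haL : a ∈ lk H W b := mem_lk.2 ⟨haW, hab.symm⟩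
          obtain ⟨β, hβ, hβc, haβ⟩ := (h.2.2 b hb).exists_facet_mem haL
          have hb' := singleton_mem_cl (H := H) hb
          have hβ' : β ∈ cl H (FS.lkF H W {b}) := by rw [lkF_singleton]; exact hβ
          refine hstep b hb ({b} ∪ β) (union_mem_cl hb' hβ') ?_
            (Finset.mem_union_left _ (Finset.mem_singleton_self b))
            (haz _ (Finset.mem_union_right _ haβ))
          rw [Finset.card_union_of_disjoint (disjoint_of_mem_cl_lkF hβ'), Finset.card_singleton,
            hβc]
          omega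
        intro v hv
        rw [← hYW] at hv
        exact (Finset.mem_filter.1 hv).2
    funext A
    by_contra hneA
    obtain ⟨h1, h2⟩ := hz A hneA
    obtain ⟨v, hv⟩ := Finset.card_pos.1 (show 0 < A.card by omega)
    exact hneA (hall v ((mem_cl.1 h1).1 hv) A hv)

theorem lkF_insert' {W κ : Finset α} {v : α} : lkF H (lk H W v) κ = lkF H W (insert v κ) := by
  rw [← lkF_singleton, lkF_lkF, ← Finset.insert_eq]

theorem insert_mem_cl {W κ : Finset α} {v : α} (hv : v ∈ W) (hκ : κ ∈ cl H (lk H W v)) :
    insert v κ ∈ cl H W ∧ v ∉ κ := by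
  have hv' := singleton_mem_cl (H := H) hv
  have hκ' : κ ∈ cl H (FS.lkF H W {v}) := by rw [lkF_singleton]; exact hκ
  refine ⟨?_, fun h => not_mem_lk_self ((mem_cl.1 hκ).1 h)⟩
  have := union_mem_cl hv' hκ'
  rwa [← Finset.insert_eq] at this

theorem HS.lk {d : ℕ} {W : Finset α} (h : HS k H (d + 1) W) {v : α} (hv : v ∈ W) :
    HS k H d (FS.lk H W v) := by
  constructor
  · intro κ hκ j hj
    obtain ⟨h1, h2⟩ := insert_mem_cl hv hκ
    rw [lkF_insert']
    exact h.ex _ h1 j (by rw [Finset.card_insert_of_notMem h2]; omega)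
  · intro κ hκ
    obtain ⟨h1, h2⟩ := insert_mem_cl hv hκ
    obtain ⟨z, hz⟩ := h.top _ h1
    rw [Finset.card_insert_of_notMem h2, show d + 1 - (κ.card + 1) = d - κ.card by omega] at hz
    rw [lkF_insert']
    exact ⟨z, hz⟩

theorem lkF_empty'' {W : Finset α} : lkF H W ∅ = W := by
  ext x; rw [mem_lkF]; simp

/-- the complement of a vertex has no homology -/
theorem HS.erase {d : ℕ} {W : Finset α} (h : HS k H d W) (hN : NP H d W) {v : α} (hv : v ∈ W)
    (j : ℕ) : Ex k H (W.erase v) j := by
  obtain ⟨d, rfl⟩ := hN.rank_pos hv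
  have hex := h.ex ∅ empty_mem_cl
  have htop := h.top ∅ empty_mem_cl
  rw [lkF_empty'', Finset.card_empty] at hex htop
  have hexv := (h.lk hv).ex ∅ empty_mem_cl
  rw [lkF_empty'', Finset.card_empty] at hexv
  rcases lt_trichotomy j (d + 1) with hj | hj | hj
  · rcases Nat.lt_or_ge j d with hj2 | hj2
    · exact (hex j (by omega)).erase (hexv j (by omega))
    · obtain rfl : j = d := by omega
      intro c hc h0
      obtain ⟨b, hb, hbc⟩ := hex j (by omega) c (hc.mono (Finset.erase_subset _ _)) h0
      obtain ⟨ζ, hζ, hζ0, hζne⟩ := htop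
      rw [Nat.sub_zero] at hζ
      obtain ⟨G, hG, hGc, -⟩ := (hN.lk hv).exists_facet
      obtain ⟨h1, h2⟩ := insert_mem_cl hv hG
      have hζG : lpart v ζ G ≠ 0 := by
        intro h3
        rw [lpart, if_neg h2] at h3
        have h4 := (mul_eq_zero.1 h3).resolve_left (sg_ne_zero _ _)
        exact hζne (top_unique (j + 1) hN ζ hζ hζ0 _ h1
          (by rw [Finset.card_insert_of_notMem h2, hGc]) h4)
      have hbd : ∀ c' : Finset α → k, (∀ A, v ∈ A → bd c' A = 0) → bd (lpart v c') = 0 := by
        intro c' hc'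
        funext A
        by_cases hu : v ∈ A
        · exact bd_lpart_of_mem hu
        · rw [bd_lpart hu, hc' _ (Finset.mem_insert_self v A), mul_zero, neg_zero]; rfl
      set a : k := lpart v b G / lpart v ζ G with ha
      have hb2 : lpart v (b + (-a) • ζ) = 0 := by
        refine top_unique j (hN.lk hv) _ (lpart_on (hb.add (hζ.smul _))) (hbd _ ?_) G hG hGc ?_
        · intro A hA
          rw [bd_add, bd_smul, hζ0, smul_zero, add_zero, hbc]
          exact hc.eq_zero (Finset.notMem_erase v W) hA
        · have : lpart v (b + (-a) • ζ) G = lpart v b G - a * lpart v ζ G := by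
            simp only [lpart, if_neg h2, Pi.add_apply, Pi.smul_apply, smul_eq_mul]
            ring
          rw [this, ha, div_mul_cancel₀ _ hζG, sub_self]
      refine ⟨b + (-a) • ζ, ?_, by rw [bd_add, bd_smul, hζ0, smul_zero, add_zero, hbc]⟩
      intro A hA
      obtain ⟨h5, h6⟩ := (hb.add (hζ.smul (-a))) A hA
      refine ⟨mem_cl.2 ⟨fun x hx => Finset.mem_erase.2 ⟨fun hxv => ?_, (mem_cl.1 h5).1 hx⟩,
        (mem_cl.1 h5).2⟩, h6⟩
      exact hA (lpart_zero_iff hb2 (hxv ▸ hx))
  · subst hj
    intro c hc h0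
    obtain ⟨G, hG, hGc, hvG⟩ := hN.exists_facet_mem hv
    have hc0 := top_unique (d + 1) hN c (hc.mono (Finset.erase_subset _ _)) h0 G hG hGc
      (hc.eq_zero (Finset.notMem_erase v W) hvG)
    exact ⟨0, On.zero, by rw [bd_zero, hc0]⟩
  · intro c hc h0
    have hc0 : c = 0 := by
      funext A
      by_contra hne
      obtain ⟨h1, h2⟩ := hc A hne
      have := hN.card_le (cl_mono (Finset.erase_subset _ _) h1)
      omega
    exact ⟨0, On.zero, by rw [bd_zero, hc0]⟩

/-- deleting a vertex and some of its neighbours gives a complex without homology -/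
theorem acyclic_del (j : ℕ) : ∀ (d : ℕ) {W : Finset α}, HS k H d W → NP H d W → ∀ v ∈ W,
    ∀ U ⊆ lk H W v, Ex k H ((W.erase v) \ U) j := by
  intro d
  induction d with
  | zero =>
    intro W _ hN v hv
    obtain ⟨e, he⟩ := hN.rank_pos hv
    omega
  | succ d ih =>
    intro W h hN v hv U
    induction U using Finset.induction_on with
    | empty =>
      intro _
      rw [Finset.sdiff_empty]
      exact h.erase hN hv j
    | insert u U huU ihU =>
      intro hsub
      have hu := hsub (Finset.mem_insert_self u U)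
      have hU : U ⊆ lk H W v := fun x hx => hsub (Finset.mem_insert_of_mem hx)
      obtain ⟨huW, hvu⟩ := mem_lk.1 hu
      have hX := ihU hU
      have hvL : v ∈ lk H W u := mem_lk.2 ⟨hv, hvu.symm⟩
      have hL := ih (h.lk huW) (hN.lk huW) v hvL (U ∩ lk H W u) (fun x hx => by
        obtain ⟨hxU, hxL⟩ := Finset.mem_inter.1 hx
        exact mem_lk.2 ⟨hxL, (mem_lk.1 (hU hxU)).2⟩)
      have e1 : (lk H W u).erase v \ (U ∩ lk H W u) = lk H (W.erase v \ U) u := by
        ext x
        simp only [Finset.mem_sdiff, Finset.mem_erase, Finset.mem_inter, mem_lk]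
        tauto
      rw [e1] at hL
      have e2 : (W.erase v \ U).erase u = W.erase v \ insert u U := by
        ext x
        simp only [Finset.mem_sdiff, Finset.mem_erase, Finset.mem_insert]
        tauto
      rw [← e2]
      exact hX.erase hL

/-- the non-neighbours of a vertex span a complex without homology -/
theorem acyclic_nn {d : ℕ} {W : Finset α} (h : HS k H d W) (hN : NP H d W) {v : α} (hv : v ∈ W)
    (j : ℕ) : Ex k H (nn H W v) j := by
  have := acyclic_del j d h hN v hv (lk H W v) (Finset.Subset.refl _)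
  have e : (W.erase v) \ lk H W v = nn H W v := by
    ext x
    rw [mem_nn, Finset.mem_sdiff, Finset.mem_erase, mem_lk]
    tauto
  rwa [e] at this

end Pool.Agent.W497.FS
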