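import Pool.Agent.W497.FS.Basic
import Pool.Agent.W497.FS.Formula2

set_option autoImplicit false

/-!
# Chains on clique complexes

A chain is a function on finite sets of vertices; `bd` is the simplicial boundary, with the signs of
the frozen statement `S07409`.
-/

namespace Pool.Agent.W497.FS

variable {k : Type} [Field k] {α : Type} [LinearOrder α] [Fintype α]

/-- the sign of inserting `v` into `A` -/
def sg (k : Type) [Field k] {α : Type} [LinearOrder α] (v : α) (A : Finset α) : k :=
  (-1 : k) ^ (A.filter (fun w => w < v)).card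

/-- the boundary of a chain -/
def bd (c : Finset α → k) : Finset α → k := fun A => ∑ v ∈ Aᶜ, sg k v A * c (insert v A)

/-- `c` is a chain supported on the faces with `j` elements of the complex on `X` -/
def On (H : SimpleGraph α) (X : Finset α) (j : ℕ) (c : Finset α → k) : Prop :=
  ∀ A, c A ≠ 0 → A ∈ cl H X ∧ A.card = j

/-- the complex on `X` has no homology in degree `j - 1` (faces with `j` elements) -/
def Ex (k : Type) [Field k] {α : Type} [LinearOrder α] [Fintype α] (H : SimpleGraph α)
    (X : Finset α) (j : ℕ) : Prop :=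
  ∀ c : Finset α → k, On H X j c → bd c = 0 → ∃ b : Finset α → k, On H X (j + 1) b ∧ bd b = c

/-- the homology part of the definition of a flag homology sphere of rank `d` -/
structure HS (k : Type) [Field k] {α : Type} [LinearOrder α] [Fintype α] (H : SimpleGraph α)
    (d : ℕ) (W : Finset α) : Prop where
  ex : ∀ κ ∈ cl H W, ∀ j, j + κ.card < d → Ex k H (lkF H W κ) j
  top : ∀ κ ∈ cl H W, ∃ z : Finset α → k, On H (lkF H W κ) (d - κ.card) z ∧ bd z = 0 ∧ z ≠ 0

/-- FS-HR: from the ranks of the boundary matrices to exactness -/
def StmHR : Prop :=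
  ∀ (k : Type) [Field k] (n d : ℕ) (S : Finset (Finset (Fin n)))
    (r : Finset (Finset (Fin n)) → ℕ → ℕ), IsFHS k n d S r → HS k (skel S) d (vert S)

/-- FS-BB: the boundary of a boundary is zero -/
def StmBB : Prop :=
  ∀ (k : Type) [Field k] (α : Type) [LinearOrder α] [Fintype α] (c : Finset α → k),
    bd (bd c) = 0

/- exchange of two insertions -/
omit [Fintype α] in
theorem sg_swap {u v : α} {A : Finset α} (huv : u ≠ v) (hu : u ∉ A) (hv : v ∉ A) :
    sg k v (insert u A) * sg k u A = -(sg k u (insert v A) * sg k v A) := by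
  have key : ∀ {p q : α}, p ≠ q → p ∉ A → sg k q (insert p A) =
      (if p < q then -1 else 1) * sg k q A := by
    intro p q hpq hp
    rw [sg, sg, Finset.filter_insert]
    by_cases h : p < q
    · rw [if_pos h, if_pos h, Finset.card_insert_of_notMem (by simp [hp]), pow_succ]
      ring
    · rw [if_neg h, if_neg h, one_mul]
  rw [key huv hu, key huv.symm hv]
  rcases lt_or_gt_of_ne huv with h | h
  · rw [if_pos h, if_neg (not_lt.2 h.le)]; ring
  · rw [if_neg (not_lt.2 h.le), if_pos h]; ring

end Pool.Agent.W497.FS
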