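import Pool.Agent.W497.FS.Thms

set_option autoImplicit false
set_option linter.unusedSectionVars false
set_option linter.unusedVariables false

/-! # Top coefficients, averaging, vanishing -/

namespace Pool.Agent.W497.FS

open Polynomial

variable {α : Type*} {H : SimpleGraph α} [DecidableEq α]

theorem GT_of_coeffs {t : ℕ∞} {d : ℕ} (a : ℕ → ℤ) (ha : ∀ i ≤ d / 2, 0 ≤ a i) :
    ∑ i ∈ Finset.range (d / 2 + 1), C (a i) * w ^ i * y ^ (d - 2 * i) ∈ GT t d := by
  refine sum_mem (fun i hi => ?_)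
  rw [Finset.mem_range] at hi
  obtain ⟨n, hn⟩ := Int.eq_ofNat_of_zero_le (ha i (by omega))
  rw [hn, mul_assoc]
  have h1 : (C ((n : ℕ) : ℤ) * (w ^ i * y ^ (d - 2 * i)) : ℤ[X]) =
      n • (w ^ i * y ^ (d - 2 * i)) := by simp
  rw [h1]
  exact AddSubmonoid.nsmul_mem _ (gen_mem t (by omega)) n

theorem aeval_w : aeval (-1 / 2 : ℚ) w = -1 / 4 := by
  rw [w]; simp; norm_num

theorem aeval_y : aeval (-1 / 2 : ℚ) y = 0 := by
  have h2 : aeval (-1 / 2 : ℚ) (2 : ℤ[X]) = 2 := map_ofNat _ 2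
  rw [y, map_add, map_mul, h2, map_one, aeval_X]; norm_num

theorem aeval_FP (W : Finset α) : aeval (-1 / 2 : ℚ) (FP H W) = lam H W := by
  rw [FP, lam, fe, map_sum]
  refine Finset.sum_congr rfl (fun σ _ => ?_)
  simp

theorem aeval_even (n : ℕ) (a : ℕ → ℤ) :
    aeval (-1 / 2 : ℚ) (∑ i ∈ Finset.range (2 * n / 2 + 1), C (a i) * w ^ i *
      y ^ (2 * n - 2 * i)) = a n * (-1 / 4) ^ n := by
  rw [map_sum, Finset.sum_eq_single_of_mem n (by rw [Finset.mem_range]; omega)]
  · rw [map_mul, map_mul, map_pow, map_pow, aeval_w, aeval_y, aeval_C]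
    simp
  · intro i hi hne
    rw [Finset.mem_range] at hi
    have h1 : 2 * n - 2 * i ≠ 0 := by omega
    rw [map_mul, map_pow, aeval_y, zero_pow h1, mul_zero]

theorem neg_pow_quarter (n : ℕ) : (-1 : ℚ) ^ n * (-1 / 4) ^ n = (1 / 4) ^ n := by
  rw [← mul_pow]; norm_num

theorem GT_improve_even {n : ℕ} {t : ℕ} (ht : n ≤ t) {p : ℤ[X]} (hp : p ∈ GT (t : ℕ∞) (2 * n))
    (h : 0 ≤ (-1) ^ n * aeval (-1 / 2 : ℚ) p) : p ∈ GT ⊤ (2 * n) := by
  obtain ⟨a, rfl, ha⟩ := GT_coeffs hp
  refine GT_of_coeffs a (fun i hi => ?_)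
  rcases Nat.lt_or_ge i n with hlt | hge
  · exact ha i (by exact_mod_cast lt_of_lt_of_le hlt ht)
  · obtain rfl : i = n := by omega
    rw [aeval_even] at h
    have h1 : (-1 : ℚ) ^ i * (a i * (-1 / 4) ^ i) = a i * (1 / 4) ^ i := by
      rw [← neg_pow_quarter i]; ring
    rw [h1] at h
    have h2 : (0 : ℚ) < (1 / 4) ^ i := by positivity
    have h3 : (0 : ℚ) ≤ a i := by
      by_contra hneg
      push Not at hneg
      have := mul_neg_of_neg_of_pos hneg h2
      linarith
    exact_mod_cast h3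

theorem derivative_gen (i j : ℕ) : aeval (-1 / 2 : ℚ) (derivative (w ^ i * y ^ (j + 1))) =
    if j = 0 then 2 * (-1 / 4) ^ i else 0 := by
  have hw : derivative w = y := by
    rw [w, y]
    simp only [derivative_mul, derivative_X, derivative_add, derivative_one]
    ring
  have hy : derivative y = 2 := by
    rw [y]
    simp only [derivative_mul, derivative_X, derivative_add, derivative_one, derivative_ofNat]
    ring
  rw [derivative_mul, derivative_pow, derivative_pow, hw, hy]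
  simp only [map_add, map_mul, map_pow, aeval_w, aeval_y, map_natCast, Nat.add_sub_cancel]
  have h2 : aeval (-1 / 2 : ℚ) (2 : ℤ[X]) = 2 := map_ofNat _ 2
  rcases j with _ | j
  · simp [h2]; ring
  · simp

theorem aeval_odd (n : ℕ) (a : ℕ → ℤ) :
    aeval (-1 / 2 : ℚ) (derivative (∑ i ∈ Finset.range ((2 * n + 1) / 2 + 1), C (a i) * w ^ i *
      y ^ (2 * n + 1 - 2 * i))) = 2 * a n * (-1 / 4) ^ n := by
  rw [derivative_sum, map_sum, Finset.sum_eq_single_of_mem n (by rw [Finset.mem_range]; omega)]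
  · have h1 : 2 * n + 1 - 2 * n = 0 + 1 := by omega
    rw [h1, mul_assoc, derivative_C_mul, map_mul, derivative_gen, if_pos rfl, aeval_C]
    simp; ring
  · intro i hi hne
    rw [Finset.mem_range] at hi
    obtain ⟨j, hj, hj0⟩ : ∃ j, 2 * n + 1 - 2 * i = j + 1 ∧ j ≠ 0 := ⟨2 * n - 2 * i, by omega, by omega⟩
    rw [hj, mul_assoc, derivative_C_mul, map_mul, derivative_gen, if_neg hj0, mul_zero]

theorem GT_improve_odd {n : ℕ} {t : ℕ} (ht : n ≤ t) {p : ℤ[X]}
    (hp : p ∈ GT (t : ℕ∞) (2 * n + 1))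
    (h : 0 ≤ (-1) ^ n * aeval (-1 / 2 : ℚ) (derivative p)) : p ∈ GT ⊤ (2 * n + 1) := by
  obtain ⟨a, rfl, ha⟩ := GT_coeffs hp
  refine GT_of_coeffs a (fun i hi => ?_)
  rcases Nat.lt_or_ge i n with hlt | hge
  · exact ha i (by exact_mod_cast lt_of_lt_of_le hlt ht)
  · obtain rfl : i = n := by omega
    rw [aeval_odd] at h
    have h1 : (-1 : ℚ) ^ i * (2 * a i * (-1 / 4) ^ i) = 2 * a i * (1 / 4) ^ i := by
      rw [← neg_pow_quarter i]; ring
    rw [h1] at h
    have h2 : (0 : ℚ) < (1 / 4) ^ i := by positivity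
    have h3 : (0 : ℚ) ≤ a i := by
      by_contra hneg
      push Not at hneg
      have := mul_neg_of_neg_of_pos hneg h2
      linarith
    exact_mod_cast h3

/-- averaging over vertex links -/
theorem derivative_FP (W : Finset α) : derivative (FP H W) = ∑ u ∈ W, FP H (lk H W u) := by
  have h1 : ∀ u ∈ W, FP H (lk H W u) = ∑ σ ∈ cl H W, if u ∈ σ then X ^ (σ.card - 1) else 0 := by
    intro u hu
    have := sum_sup (H := H) (singleton_mem_cl hu) (fun n => (X : ℤ[X]) ^ (n - 1))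
    rw [lkF_singleton] at this
    rw [← Finset.sum_filter, FP]
    simp only [Finset.card_singleton, Nat.add_sub_cancel, Finset.singleton_subset_iff] at this
    exact this.symm
  rw [Finset.sum_congr rfl h1, Finset.sum_comm, FP, derivative_sum]
  refine Finset.sum_congr rfl (fun σ hσ => ?_)
  rw [← Finset.sum_filter]
  have h2 : W.filter (fun u => u ∈ σ) = σ := by
    ext z
    rw [Finset.mem_filter]
    exact ⟨fun h => h.2, fun h => ⟨(mem_cl.1 hσ).1 h, h⟩⟩
  rw [h2, Finset.sum_const, derivative_X_pow, nsmul_eq_mul]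
  simp

theorem aeval_derivative_FP (W : Finset α) :
    aeval (-1 / 2 : ℚ) (derivative (FP H W)) = ∑ u ∈ W, lam H (lk H W u) := by
  rw [derivative_FP, map_sum]
  exact Finset.sum_congr rfl (fun u _ => aeval_FP _)

theorem lam_nonneg_of_GT {n : ℕ} {W : Finset α} (h : FP H W ∈ GT ⊤ (2 * n)) :
    0 ≤ (-1) ^ n * lam H W := by
  obtain ⟨a, ha, hpos⟩ := GT_coeffs h
  rw [← aeval_FP, ha, aeval_even]
  have h1 : (-1 : ℚ) ^ n * (a n * (-1 / 4) ^ n) = a n * (1 / 4) ^ n := by
    rw [← neg_pow_quarter n]; ring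
  rw [h1]
  have h2 : (0 : ℚ) ≤ a n := by exact_mod_cast hpos n (by exact_mod_cast WithTop.coe_lt_top n)
  positivity

/-- **defect at most one, rank at most seven: Gal's conjecture** -/
theorem gal_defect_one {d : ℕ} {W : Finset α} (h : NP H d W) (hE : Eul H d W)
    (hδ : W.card + (comps H W).card ≤ 3 * d + 1) (hd : d ≤ 7) : FP H W ∈ GT ⊤ d := by
  have h3 := FP_mem_three h hE hδ
  have h3' : FP H W ∈ GT ((3 : ℕ) : ℕ∞) d := h3
  rcases Nat.lt_or_ge d 6 with h6 | h6
  · exact GT_of_lt (t := 3) (by omega) ⊤ h3'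
  obtain rfl | rfl : d = 6 ∨ d = 7 := by omega
  · refine GT_improve_even (n := 3) (t := 3) le_rfl h3' ?_
    rw [aeval_FP]
    exact cd_defect_one h hE hδ 3 rfl
  · refine GT_improve_odd (n := 3) (t := 3) le_rfl h3' ?_
    rw [aeval_derivative_FP, Finset.mul_sum]
    refine Finset.sum_nonneg (fun u hu => ?_)
    have h1 := h.defect_lk u hu
    exact cd_defect_one (h.lk hu) (hE.lk_succ hu) (by omega) 3 rfl

/-! ### Vanishing beyond `γ₁` -/

/-- combinations of `w^i y^j` with `i < s` -/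
noncomputable def Lo (s d : ℕ) : AddSubgroup ℤ[X] :=
  AddSubgroup.closure {p | ∃ i j : ℕ, 2 * i + j = d ∧ i < s ∧ p = w ^ i * y ^ j}

/-- the coefficients vanish beyond `s` and the `s`-th one is `0` or `1` -/
def VV (s d : ℕ) (p : ℤ[X]) : Prop :=
  p ∈ Lo s d ∨ ∃ q ∈ Lo s d, 2 * s ≤ d ∧ p = q + w ^ s * y ^ (d - 2 * s)

theorem Lo_gen {s d i j : ℕ} (h : 2 * i + j = d) (hi : i < s) : w ^ i * y ^ j ∈ Lo s d :=
  AddSubgroup.subset_closure ⟨i, j, h, hi, rfl⟩

theorem Lo_of_GT {s d : ℕ} (hs : d < 2 * s) {p : ℤ[X]} (hp : p ∈ GT 0 d) : p ∈ Lo s d := by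
  induction hp using AddSubmonoid.closure_induction with
  | mem p hp =>
    obtain ⟨i, j, hij, hp⟩ := hp
    rcases hp with rfl | ⟨_, rfl⟩
    · exact Lo_gen hij (by omega)
    · exact neg_mem (Lo_gen hij (by omega))
  | zero => exact zero_mem _
  | add a b _ _ ha hb => exact add_mem ha hb

theorem Lo_mul_gen {s d i j e s' : ℕ} (h : 2 * i + j = e) (hi : i ≤ s') {p : ℤ[X]}
    (hp : p ∈ Lo s d) : p * (w ^ i * y ^ j) ∈ Lo (s + s') (d + e) := by
  induction hp using AddSubgroup.closure_induction with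
  | mem p hp =>
    obtain ⟨i', j', hij', hi', rfl⟩ := hp
    have : w ^ i' * y ^ j' * (w ^ i * y ^ j) = w ^ (i' + i) * y ^ (j' + j) := by
      rw [pow_add, pow_add]; ring
    rw [this]
    exact Lo_gen (by omega) (by omega)
  | zero => rw [zero_mul]; exact zero_mem _
  | add a b _ _ ha hb => rw [add_mul]; exact add_mem ha hb
  | neg a _ ha => rw [neg_mul]; exact neg_mem ha

theorem Lo_mul {s d s' e : ℕ} {p q : ℤ[X]} (hp : p ∈ Lo s d) (hq : q ∈ Lo s' e) :
    p * q ∈ Lo (s + s') (d + e) := by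
  induction hq using AddSubgroup.closure_induction with
  | mem q hq =>
    obtain ⟨i', j', hij', hi', rfl⟩ := hq
    exact Lo_mul_gen hij' hi'.le hp
  | zero => rw [mul_zero]; exact zero_mem _
  | add a b _ _ ha hb => rw [mul_add]; exact add_mem ha hb
  | neg a _ ha => rw [mul_neg]; exact neg_mem ha

theorem VV_mul {s d s' e : ℕ} {p q : ℤ[X]} (hp : VV s d p) (hq : VV s' e q) :
    VV (s + s') (d + e) (p * q) := by
  rcases hp with hp | ⟨p', hp', hsd, rfl⟩
  · rcases hq with hq | ⟨q', hq', hse, rfl⟩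
    · exact Or.inl (Lo_mul hp hq)
    · left
      rw [mul_add]
      exact add_mem (Lo_mul hp hq') (Lo_mul_gen (by omega) le_rfl hp)
  · rcases hq with hq | ⟨q', hq', hse, rfl⟩
    · left
      rw [add_mul]
      refine add_mem (Lo_mul hp' hq) ?_
      have := Lo_mul_gen (s' := s) (i := s) (j := d - 2 * s) (e := d) (by omega) le_rfl hq
      rw [mul_comm, add_comm s s', add_comm d e]
      exact this
    · right
      refine ⟨p' * q' + p' * (w ^ s' * y ^ (e - 2 * s')) + (w ^ s * y ^ (d - 2 * s)) * q', ?_,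
        by omega, ?_⟩
      · refine add_mem (add_mem (Lo_mul hp' hq') (Lo_mul_gen (by omega) le_rfl hp')) ?_
        have := Lo_mul_gen (s' := s) (i := s) (j := d - 2 * s) (e := d) (by omega) le_rfl hq'
        rw [mul_comm, add_comm s s', add_comm d e]
        exact this
      · have e1 : d + e - 2 * (s + s') = (d - 2 * s) + (e - 2 * s') := by omega
        rw [e1, pow_add, pow_add]
        ring

theorem Lo_coeffs {s d : ℕ} {p : ℤ[X]} (hp : p ∈ Lo s d) :
    ∃ a : ℕ → ℤ, p = ∑ i ∈ Finset.range (d / 2 + 1), C (a i) * w ^ i * y ^ (d - 2 * i) ∧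
      ∀ i, s ≤ i → a i = 0 := by
  induction hp using AddSubgroup.closure_induction with
  | mem p hp =>
    obtain ⟨i, j, hij, his, rfl⟩ := hp
    have hi : i ∈ Finset.range (d / 2 + 1) := by rw [Finset.mem_range]; omega
    have hj : d - 2 * i = j := by omega
    refine ⟨fun n => if n = i then 1 else 0, ?_, fun n hn => ?_⟩
    · rw [Finset.sum_eq_single_of_mem i hi]
      · simp [hj]
      · intro b _ hb; simp [hb]
    · dsimp only
      rw [if_neg (by omega)]
  | zero => exact ⟨fun _ => 0, by simp, fun _ _ => rfl⟩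
  | add a b _ _ ha hb =>
    obtain ⟨f, rfl, hf⟩ := ha
    obtain ⟨g, rfl, hg⟩ := hb
    refine ⟨fun i => f i + g i, ?_, fun i hi => by dsimp only; rw [hf i hi, hg i hi]; rfl⟩
    rw [← Finset.sum_add_distrib]
    refine Finset.sum_congr rfl (fun i _ => ?_)
    rw [C_add]; ring
  | neg a _ ha =>
    obtain ⟨f, rfl, hf⟩ := ha
    refine ⟨fun i => - f i, ?_, fun i hi => by dsimp only; rw [hf i hi]; rfl⟩
    rw [← Finset.sum_neg_distrib]
    refine Finset.sum_congr rfl (fun i _ => ?_)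
    rw [C_neg]; ring

theorem VV_coeffs {s d : ℕ} {p : ℤ[X]} (hp : VV s d p) :
    ∃ a : ℕ → ℤ, p = ∑ i ∈ Finset.range (d / 2 + 1), C (a i) * w ^ i * y ^ (d - 2 * i) ∧
      (∀ i, s < i → a i = 0) ∧ (a s = 0 ∨ a s = 1) := by
  rcases hp with hp | ⟨q, hq, hsd, rfl⟩
  · obtain ⟨a, h1, h2⟩ := Lo_coeffs hp
    exact ⟨a, h1, fun i hi => h2 i hi.le, Or.inl (h2 s le_rfl)⟩
  · obtain ⟨a, h1, h2⟩ := Lo_coeffs hq
    refine ⟨fun i => a i + if i = s then 1 else 0, ?_, fun i hi => ?_, Or.inr ?_⟩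
    · have hs : s ∈ Finset.range (d / 2 + 1) := by rw [Finset.mem_range]; omega
      have e1 : w ^ s * y ^ (d - 2 * s) = ∑ i ∈ Finset.range (d / 2 + 1),
          C (if i = s then (1 : ℤ) else 0) * w ^ i * y ^ (d - 2 * i) := by
        rw [Finset.sum_eq_single_of_mem s hs]
        · simp
        · intro b _ hb; simp [hb]
      rw [e1, h1, ← Finset.sum_add_distrib]
      refine Finset.sum_congr rfl (fun i _ => ?_)
      rw [C_add]; ring
    · dsimp only
      rw [h2 i hi.le, if_neg (by omega)]; rfl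
    · dsimp only
      rw [h2 s le_rfl, if_pos rfl]; rfl

theorem FP_rank_one {W : Finset α} (h : NP H 1 W) (hE : Eul H 1 W) : FP H W = y := by
  obtain ⟨v, hv⟩ := h.nonempty
  have h0 : lk H W v = ∅ := h.lk hv
  rw [FP_vertex hE hv, Bk_rank_one h, h0, FP_empty, mul_zero, add_zero, mul_one]

theorem FP_rank_two {W : Finset α} (h : NP H 2 W) (hE : Eul H 2 W) :
    FP H W = y ^ 2 + C ((W.card : ℤ) - 4) * w := by
  obtain ⟨v, hv⟩ := h.nonempty
  have hL := h.lk hv
  have h1 := FP_vertex hE hv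
  rw [FP_rank_one hL (hE.lk_succ hv)] at h1
  have h2 := Bk_mem_one (d := 0) h hE hv
  obtain ⟨a, ha, -⟩ := GT_coeffs h2
  have h3 := Bk_eval_zero hE hv
  have h4 : lk H W v ∈ ({X | X.card = 2} : Set (Finset α)) := hL.1
  have h4' : (lk H W v).card = 2 := h4
  have h5 := card_eq_lk_nn (H := H) hv
  have h6 : Bk H W v = C (a 0) := by rw [ha]; simp
  rw [h6, eval_C] at h3
  have h7 : a 0 = (W.card : ℤ) - 4 := by
    rw [h3, h5, h4']; push_cast; ring
  rw [h1, h6, h7]; ring

/-- the vanishing property for all complexes -/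
theorem vanish {d : ℕ} {W : Finset α} (h : NP H d W) (hE : Eul H d W) :
    VV (W.card - 2 * d) d (FP H W) := by
  refine join_induction' (H := H) (P := fun d W => VV (W.card - 2 * d) d (FP H W)) ?_ ?_ ?_ h hE
  · rw [FP_empty]
    right
    exact ⟨0, zero_mem _, by simp, by simp⟩
  · intro d W h hE hp _
    have h3 := Prm.three_mul_le h hp
    have hG : FP H W ∈ GT 0 (d + 1) := GT_mono zero_le _ (FP_mem_two h hE)
    rcases d with _ | _ | d
    · have h' : W.card = 2 ∧ ∀ x ∈ W, ∀ y ∈ W, ¬ H.Adj x y := h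
      rw [FP_rank_one h hE, h'.1]
      right
      exact ⟨0, zero_mem _, by simp, by simp⟩
    · by_cases h5 : W.card = 5
      · rw [FP_rank_two h hE, h5]
        right
        refine ⟨y ^ 2, ?_, by norm_num, by simp⟩
        have := Lo_gen (s := 1) (d := 2) (i := 0) (j := 2) (by norm_num) (by norm_num)
        simpa using this
      · exact Or.inl (Lo_of_GT (by omega) hG)
    · exact Or.inl (Lo_of_GT (by omega) hG)
  · intro d₁ d₂ A B hA hB _ _ _ hAB h1 h2
    have k1 := hA.two_mul_le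
    have k2 := hB.two_mul_le
    rw [FP_join hAB, Finset.card_union_of_disjoint hAB.disjoint]
    have e1 : A.card + B.card - 2 * (d₁ + 1 + (d₂ + 1)) =
        (A.card - 2 * (d₁ + 1)) + (B.card - 2 * (d₂ + 1)) := by omega
    rw [e1]
    exact VV_mul h1 h2

/-- Charney-Davis quantity for few vertices -/
theorem lam_few {n : ℕ} {W : Finset α} (h : NP H (2 * n) W) (hE : Eul H (2 * n) W) :
    (W.card < 5 * n → lam H W = 0) ∧
    (W.card = 5 * n → lam H W = 0 ∨ lam H W = (-1 / 4) ^ n) := by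
  obtain ⟨a, h1, h2, h3⟩ := VV_coeffs (vanish h hE)
  have k := h.two_mul_le
  have h4 : lam H W = a n * (-1 / 4) ^ n := by
    rw [← aeval_FP, h1, aeval_even]
  constructor
  · intro hlt
    rw [h4, h2 n (by omega)]; simp
  · intro heq
    have : W.card - 2 * (2 * n) = n := by omega
    rw [this] at h3
    rcases h3 with h3 | h3
    · left; rw [h4, h3]; simp
    · right; rw [h4, h3]; simp

end Pool.Agent.W497.FS
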