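import Pool.Agent.W497.FS.Acyc
import Pool.Agent.W497.FS.Top

set_option autoImplicit false
set_option linter.unusedSectionVars false

/-!
# Gal's conjecture when no vertex avoids a face with four vertices
-/

namespace Pool.Agent.W497.FS

open Polynomial

variable {k : Type} [Field k] {α : Type} [LinearOrder α] [Fintype α] {H : SimpleGraph α}

/-- the boundary as a linear map -/
def bdL : (Finset α → k) →ₗ[k] (Finset α → k) where
  toFun := bd
  map_add' := bd_add
  map_smul' := bd_smul

/-- if the complex on `M` has no homology and no face with four vertices, its triangles can be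
matched injectively with edges contained in them -/
theorem exists_matching {M : Finset α} (hEx : Ex k H M 3) (h4 : ∀ κ ∈ cl H M, κ.card ≤ 3) :
    ∃ f : Finset α → Finset α, (∀ T ∈ cl H M, T.card = 3 → f T ⊆ T ∧ (f T).card = 2) ∧
      ∀ T ∈ cl H M, T.card = 3 → ∀ T' ∈ cl H M, T'.card = 3 → f T = f T' → T = T' := by
  classical
  let ι : Type := {T : Finset α // T ∈ (cl H M).filter (fun T => T.card = 3)}
  let t : ι → Finset (Finset α) := fun T => T.1.powersetCard 2
  have hHall : ∀ s : Finset ι, s.card ≤ (s.biUnion t).card := by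
    intro s
    by_contra hlt
    push Not at hlt
    set B := s.biUnion t with hB
    let ext : (s → k) →ₗ[k] (Finset α → k) :=
      { toFun := fun x A => ∑ T : s, if T.1.1 = A then x T else 0
        map_add' := fun x y => by
          funext A
          simp only [Pi.add_apply]
          rw [← Finset.sum_add_distrib]
          exact Finset.sum_congr rfl (fun T _ => by split_ifs <;> simp)
        map_smul' := fun a x => by
          funext A
          simp only [Pi.smul_apply, smul_eq_mul, RingHom.id_apply, Finset.mul_sum]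
          exact Finset.sum_congr rfl (fun T _ => by split_ifs <;> simp) }
    let res : (Finset α → k) →ₗ[k] (B → k) :=
      { toFun := fun c e => c e.1
        map_add' := fun _ _ => rfl
        map_smul' := fun _ _ => rfl }
    have hker : LinearMap.ker (res ∘ₗ bdL ∘ₗ ext) ≠ ⊥ := by
      apply LinearMap.ker_ne_bot_of_finrank_lt
      rw [Module.finrank_fintype_fun_eq_card, Module.finrank_fintype_fun_eq_card,
        Fintype.card_coe, Fintype.card_coe]
      exact hlt
    obtain ⟨x, hx, hxne⟩ := (Submodule.ne_bot_iff _).1 hker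
    rw [LinearMap.mem_ker] at hx
    have hval : ∀ T : s, ext x T.1.1 = x T := by
      intro T
      change (∑ T' : s, if T'.1.1 = T.1.1 then x T' else 0) = x T
      rw [Finset.sum_eq_single T]
      · rw [if_pos rfl]
      · intro T' _ hT'
        rw [if_neg]
        intro h
        exact hT' (Subtype.ext (Subtype.ext h))
      · intro h; exact absurd (Finset.mem_univ _) h
    have hsupp : ∀ A, ext x A ≠ 0 → ∃ T : s, T.1.1 = A := by
      intro A hA
      change (∑ T' : s, if T'.1.1 = A then x T' else 0) ≠ 0 at hA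
      obtain ⟨T, -, hT⟩ := Finset.exists_ne_zero_of_sum_ne_zero hA
      refine ⟨T, ?_⟩
      by_contra h
      rw [if_neg h] at hT
      exact hT rfl
    have hOn : On H M 3 (ext x) := by
      intro A hA
      obtain ⟨T, rfl⟩ := hsupp A hA
      exact Finset.mem_filter.1 T.1.2
    have hbd : bd (ext x) = 0 := by
      funext A
      by_cases hA : A ∈ B
      · exact congrFun hx ⟨A, hA⟩
      · rw [bd, Pi.zero_apply]
        refine Finset.sum_eq_zero (fun v hv => ?_)
        rw [Finset.mem_compl] at hv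
        by_cases h0 : ext x (insert v A) = 0
        · rw [h0, mul_zero]
        · exfalso
          apply hA
          obtain ⟨T, hT⟩ := hsupp _ h0
          have h3 := (Finset.mem_filter.1 T.1.2).2
          rw [hT, Finset.card_insert_of_notMem hv] at h3
          rw [hB, Finset.mem_biUnion]
          refine ⟨T.1, T.2, ?_⟩
          rw [Finset.mem_powersetCard, hT]
          exact ⟨Finset.subset_insert _ _, by omega⟩
    obtain ⟨b, hb, hbc⟩ := hEx _ hOn hbd
    have hb0 : b = 0 := by
      funext A
      by_contra hne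
      obtain ⟨h5, h6⟩ := hb A hne
      have := h4 A h5
      omega
    rw [hb0, bd_zero] at hbc
    apply hxne
    funext T
    rw [← hval T, ← hbc]
    rfl
  obtain ⟨g, hg1, hg2⟩ := (Finset.all_card_le_biUnion_card_iff_exists_injective t).1 hHall
  refine ⟨fun T => if h : T ∈ (cl H M).filter (fun T => T.card = 3) then g ⟨T, h⟩ else ∅,
    ?_, ?_⟩
  · intro T hT hc
    have hT' : T ∈ (cl H M).filter (fun T => T.card = 3) := Finset.mem_filter.2 ⟨hT, hc⟩
    simp only [dif_pos hT']
    exact Finset.mem_powersetCard.1 (hg2 ⟨T, hT'⟩)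
  · intro T hT hc T₂ hT₂ hc₂ heq
    have h1 : T ∈ (cl H M).filter (fun T => T.card = 3) := Finset.mem_filter.2 ⟨hT, hc⟩
    have h2 : T₂ ∈ (cl H M).filter (fun T => T.card = 3) := Finset.mem_filter.2 ⟨hT₂, hc₂⟩
    simp only [dif_pos h1, dif_pos h2] at heq
    exact congrArg Subtype.val (hg1 heq)

theorem Bk_of_matching {d : ℕ} {W : Finset α} (hN : NP H (d + 2) W) (hE : Eul H (d + 2) W)
    {v : α} (h4 : ∀ κ ∈ cl H (nn H W v), κ.card ≤ 3) (hEx : Ex k H (nn H W v) 3)
    (hA : ∀ e ∈ cl H (nn H W v), e.card = 2 → FP H (lkF H W e) ∈ GT ⊤ d)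
    (hB : ∀ T ∈ cl H (nn H W v), T.card = 3 → ∀ t ∈ T,
      w * Bk H (lkF H W (T.erase t)) t ∈ GT ⊤ d) : Bk H W v ∈ GT ⊤ d := by
  classical
  obtain ⟨f, hf1, hf2⟩ := exists_matching hEx h4
  set E2 := (cl H (nn H W v)).filter (fun κ => κ.card = 2) with hE2
  set T3 := (cl H (nn H W v)).filter (fun κ => κ.card = 3) with hT3
  have hsum : Bk H W v = ∑ e ∈ E2, FP H (lkF H W e) - ∑ T ∈ T3, y * FP H (lkF H W T) := by
    rw [Bk, hE2, hT3, Finset.sum_filter, Finset.sum_filter, ← Finset.sum_sub_distrib]
    refine Finset.sum_congr rfl (fun κ hκ => ?_)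
    have hle := h4 κ hκ
    have hcases : κ.card = 0 ∨ κ.card = 1 ∨ κ.card = 2 ∨ κ.card = 3 := by omega
    rcases hcases with hc | hc | hc | hc
    · simp [hc, sj_zero]
    · simp [hc, sj_zero]
    · simp [hc, sj_one]
    · rw [hc]
      simp only [show ¬ (3 : ℕ) = 2 by norm_num, if_false, if_true, show 3 - 1 = 2 from rfl, sj_two,
        y]
      ring
  have hfmem : ∀ T ∈ T3, f T ∈ E2 := by
    intro T hT
    obtain ⟨h1, h2⟩ := Finset.mem_filter.1 hT
    obtain ⟨h3, h5⟩ := hf1 T h1 h2
    exact Finset.mem_filter.2 ⟨cl_of_subset h1 h3, h5⟩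
  have himg : T3.image f ⊆ E2 := by
    intro e he
    obtain ⟨T, hT, rfl⟩ := Finset.mem_image.1 he
    exact hfmem T hT
  have hinj : Set.InjOn f T3 := by
    intro T hT T' hT' heq
    obtain ⟨h1, h2⟩ := Finset.mem_filter.1 hT
    obtain ⟨h3, h5⟩ := Finset.mem_filter.1 hT'
    exact hf2 T h1 h2 T' h3 h5 heq
  have hsum2 : Bk H W v = ∑ e ∈ E2 \ T3.image f, FP H (lkF H W e) +
      ∑ T ∈ T3, (FP H (lkF H W (f T)) - y * FP H (lkF H W T)) := by
    rw [hsum, ← Finset.sum_sdiff himg, Finset.sum_image hinj, Finset.sum_sub_distrib]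
    ring
  rw [hsum2]
  refine add_mem (sum_mem (fun e he => ?_)) (sum_mem (fun T hT => ?_))
  · obtain ⟨h1, h2⟩ := Finset.mem_filter.1 (Finset.mem_sdiff.1 he).1
    exact hA e h1 h2
  · obtain ⟨h1, h2⟩ := Finset.mem_filter.1 hT
    obtain ⟨h3, h5⟩ := hf1 T h1 h2
    obtain ⟨t, ht, htf⟩ : ∃ t ∈ T, t ∉ f T := by
      by_contra hcon
      push Not at hcon
      have := Finset.card_le_card (show T ⊆ f T from hcon)
      omega
    have hTe : T.erase t = f T := by
      symm
      refine Finset.eq_of_subset_of_card_le (fun x hx => Finset.mem_erase.2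
        ⟨fun h => htf (h ▸ hx), h3 hx⟩) ?_
      rw [Finset.card_erase_of_mem ht]
      omega
    have hTi : T = insert t (f T) := by rw [← hTe, Finset.insert_erase ht]
    have hfW : f T ∈ cl H W := cl_mono nn_subset (cl_of_subset h1 h3)
    have htX : t ∈ lkF H W (f T) := by
      have hTW := mem_cl.1 (cl_mono nn_subset h1)
      exact mem_lkF.2 ⟨hTW.1 ht, fun z hz => hTW.2 z (h3 hz) t ht (fun h => htf (h ▸ hz))⟩
    have hEX : Eul H d (lkF H W (f T)) := hE.lkF_rank hfW (by omega)
    have hlk : lkF H W T = lk H (lkF H W (f T)) t := by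
      conv_lhs => rw [hTi]
      rw [lkF_insert]
    have h6 := FP_vertex hEX htX
    rw [hlk, h6, add_sub_cancel_left, ← hTe]
    exact hB T h1 h2 t ht

/-- no vertex is non-adjacent to all vertices of a face with four vertices -/
def K14 (H : SimpleGraph α) (W : Finset α) : Prop :=
  ∀ v ∈ W, ∀ κ ∈ cl H (nn H W v), κ.card ≤ 3

theorem lkF_subset {W κ : Finset α} : lkF H W κ ⊆ W := fun _ hx => (mem_lkF.1 hx).1

theorem nn_mono {A W : Finset α} (h : A ⊆ W) (v : α) : nn H A v ⊆ nn H W v := fun x hx => by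
  rw [mem_nn] at hx ⊢
  exact ⟨h hx.1, hx.2⟩

theorem K14.lkF {W : Finset α} (h : K14 H W) (κ : Finset α) : K14 H (lkF H W κ) :=
  fun v hv G hG => h v (lkF_subset hv) G (cl_mono (nn_mono lkF_subset v) hG)

theorem HS.lkF {d e : ℕ} {W κ : Finset α} (h : HS k H d W) (hκ : κ ∈ cl H W)
    (he : e + κ.card = d) : HS k H e (FS.lkF H W κ) := by
  constructor
  · intro σ hσ j hj
    rw [lkF_lkF]
    refine h.ex _ (union_mem_cl hκ hσ) j ?_
    rw [Finset.card_union_of_disjoint (disjoint_of_mem_cl_lkF hσ)]
    omega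
  · intro σ hσ
    obtain ⟨z, hz⟩ := h.top _ (union_mem_cl hκ hσ)
    rw [Finset.card_union_of_disjoint (disjoint_of_mem_cl_lkF hσ),
      show d - (κ.card + σ.card) = e - σ.card by omega] at hz
    rw [lkF_lkF]
    exact ⟨z, hz⟩

theorem w_mem_of {d : ℕ} {p : ℤ[X]} (hp : p ∈ GT ⊤ d) : w * p ∈ GT ⊤ (d + 2) := by
  have htop : (⊤ : ℕ∞) + 1 = ⊤ := rfl
  have := GT_w hp
  rwa [htop] at this

/-- **Gal's conjecture and monotonicity when no vertex avoids a 4-face** -/
theorem gal_k14 : ∀ (d : ℕ) {W : Finset α}, NP H d W → Eul H d W → HS k H d W → K14 H W →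
    FP H W ∈ GT ⊤ d ∧ ∀ v ∈ W, w * Bk H W v ∈ GT ⊤ d := by
  intro d
  induction d using Nat.strong_induction_on with
  | _ d ih =>
    intro W hN hE hS hK
    rcases d with _ | _ | d
    · have h0 : W = ∅ := hN
      subst h0
      exact ⟨by rw [FP_empty]; exact one_mem_GT _, fun v hv => absurd hv (Finset.notMem_empty v)⟩
    · have hN1 : NP H 1 W := hN
      have hE1 : Eul H 1 W := hE
      refine ⟨?_, fun v hv => by rw [Bk_rank_one hN1, mul_zero]; exact zero_mem _⟩
      rw [FP_rank_one hN1 hE1]
      have := gen_mem ⊤ (i := 0) (j := 1) (d := 1) rfl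
      simpa using this
    · have hB : ∀ v ∈ W, Bk H W v ∈ GT ⊤ d := by
        intro v hv
        refine Bk_of_matching hN hE (hK v hv) (acyclic_nn hS hN hv 3) ?_ ?_
        · intro e he hc
          have heW := cl_mono nn_subset he
          obtain ⟨e', he', hNP, -, -⟩ := hN.lkF heW
          obtain rfl : e' = d := by omega
          exact (ih e' (by omega) hNP (hE.lkF_rank heW he') (hS.lkF heW he') (hK.lkF e)).1
        · intro T hT hc t ht
          have hTW := cl_mono nn_subset hT
          have heW : T.erase t ∈ cl H W := cl_of_subset hTW (Finset.erase_subset _ _)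
          have hec : (T.erase t).card = 2 := by rw [Finset.card_erase_of_mem ht, hc]
          obtain ⟨e', he', hNP, -, -⟩ := hN.lkF heW
          obtain rfl : e' = d := by omega
          refine (ih e' (by omega) hNP (hE.lkF_rank heW he') (hS.lkF heW he') (hK.lkF _)).2 t ?_
          have h2 := mem_cl.1 hTW
          exact mem_lkF.2 ⟨h2.1 ht, fun z hz => h2.2 z (Finset.mem_of_mem_erase hz) t ht
            (Finset.ne_of_mem_erase hz)⟩
      refine ⟨?_, fun v hv => w_mem_of (hB v hv)⟩
      obtain ⟨v, hv⟩ := hN.nonempty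
      rw [FP_vertex hE hv]
      have h1 := singleton_mem_cl (H := H) hv
      have h2 : HS k H (d + 1) (lk H W v) := hS.lk hv
      have h3 : K14 H (lk H W v) := by rw [← lkF_singleton]; exact hK.lkF _
      exact add_mem (GT_y (ih (d + 1) (by omega) (hN.lk hv) (hE.lk_succ hv) h2 h3).1)
        (w_mem_of (hB v hv))

/-- the condition on the links used in the final theorem -/
def CC (H : SimpleGraph α) (d : ℕ) (W : Finset α) : Prop :=
  ∀ κ ∈ cl H W, κ.card < d → ∃ v ∈ lkF H W κ,
    (∀ G ∈ cl H (nn H (lkF H W κ) v), G.card ≤ 3) ∧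
    ∀ T ∈ cl H (nn H (lkF H W κ) v), T.card = 3 → ∀ t ∈ T,
      K14 H (lkF H (lkF H W κ) (T.erase t))

theorem CC.lkF {d e : ℕ} {W κ : Finset α} (h : CC H d W) (hκ : κ ∈ cl H W)
    (he : e + κ.card = d) : CC H e (lkF H W κ) := by
  intro σ hσ hc
  rw [lkF_lkF]
  refine h _ (union_mem_cl hκ hσ) ?_
  rw [Finset.card_union_of_disjoint (disjoint_of_mem_cl_lkF hσ)]
  omega

/-- **Gal's conjecture for spheres whose links have good vertices** -/
theorem gal_cc : ∀ (d : ℕ) {W : Finset α}, NP H d W → Eul H d W → HS k H d W → CC H d W →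
    FP H W ∈ GT ⊤ d := by
  intro d
  induction d using Nat.strong_induction_on with
  | _ d ih =>
    intro W hN hE hS hC
    rcases d with _ | _ | d
    · have h0 : W = ∅ := hN
      subst h0
      rw [FP_empty]; exact one_mem_GT _
    · have hN1 : NP H 1 W := hN
      have hE1 : Eul H 1 W := hE
      rw [FP_rank_one hN1 hE1]
      have := gen_mem ⊤ (i := 0) (j := 1) (d := 1) rfl
      simpa using this
    · obtain ⟨v, hv, h4, hT⟩ := hC ∅ empty_mem_cl (by simp)
      rw [lkF_empty''] at hv h4 hT
      rw [FP_vertex hE hv]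
      have h1 := singleton_mem_cl (H := H) hv
      have h3 : CC H (d + 1) (lk H W v) := by
        rw [← lkF_singleton]
        exact hC.lkF h1 (by rw [Finset.card_singleton])
      refine add_mem (GT_y (ih (d + 1) (by omega) (hN.lk hv) (hE.lk_succ hv) (hS.lk hv) h3))
        (w_mem_of ?_)
      refine Bk_of_matching hN hE h4 (acyclic_nn hS hN hv 3) ?_ ?_
      · intro e he hc
        have heW := cl_mono nn_subset he
        obtain ⟨e', he', hNP, -, -⟩ := hN.lkF heW
        obtain rfl : e' = d := by omega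
        exact ih e' (by omega) hNP (hE.lkF_rank heW he') (hS.lkF heW he') (hC.lkF heW he')
      · intro T hTm hc t ht
        have hTW := cl_mono nn_subset hTm
        have heW : T.erase t ∈ cl H W := cl_of_subset hTW (Finset.erase_subset _ _)
        have hec : (T.erase t).card = 2 := by rw [Finset.card_erase_of_mem ht, hc]
        obtain ⟨e', he', hNP, -, -⟩ := hN.lkF heW
        obtain rfl : e' = d := by omega
        refine (gal_k14 e' hNP (hE.lkF_rank heW he') (hS.lkF heW he') (hT T hTm hc t ht)).2 t ?_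
        have h2 := mem_cl.1 hTW
        exact mem_lkF.2 ⟨h2.1 ht, fun z hz => h2.2 z (Finset.mem_of_mem_erase hz) t ht
          (Finset.ne_of_mem_erase hz)⟩

end Pool.Agent.W497.FS
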