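import Mathlib

set_option autoImplicit false

/-!
# Flag complexes as cliques of a graph: definitions and the statements of the parts

`H` is a simple graph on `α` (the 1-skeleton).  A finite set `W` of vertices stands for the flag
complex whose faces are the cliques of `H` inside `W`; links of vertices and of faces are again of
this form, for a smaller vertex set.
-/

namespace Pool.Agent.W497.FS

open Polynomial

open scoped Classical in
/-- the vertex set of the link of the vertex `v` in the complex on `W` -/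
noncomputable def lk {α : Type*} (H : SimpleGraph α) (W : Finset α) (v : α) : Finset α :=
  W.filter (fun x => H.Adj v x)

open scoped Classical in
/-- the vertex set of the link of the face `κ` in the complex on `W` -/
noncomputable def lkF {α : Type*} (H : SimpleGraph α) (W κ : Finset α) : Finset α :=
  W.filter (fun x => ∀ y ∈ κ, H.Adj y x)

open scoped Classical in
/-- the faces of the complex on `W`: the cliques of `H` inside `W` -/
noncomputable def cl {α : Type*} (H : SimpleGraph α) (W : Finset α) : Finset (Finset α) :=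
  W.powerset.filter (fun σ => ∀ x ∈ σ, ∀ y ∈ σ, x ≠ y → H.Adj x y)

/-- the complex on `W` is connected: no proper nonempty part without an edge to the rest -/
def SConn {α : Type*} (H : SimpleGraph α) (W : Finset α) : Prop :=
  ∀ A ⊆ W, A.Nonempty → A ≠ W → ∃ a ∈ A, ∃ b ∈ W, b ∉ A ∧ H.Adj a b

/-- the complex on `W` is *prime*: it is nonempty and not a join of two nonempty parts
(the complement graph is connected) -/
def Prm {α : Type*} (H : SimpleGraph α) (W : Finset α) : Prop :=
  W.Nonempty ∧ ∀ A ⊆ W, A.Nonempty → A ≠ W → ∃ a ∈ A, ∃ b ∈ W, b ∉ A ∧ ¬ H.Adj a b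

/-- flag normal pseudomanifolds of rank `d` (dimension `d - 1`) -/
def NP {α : Type*} (H : SimpleGraph α) : ℕ → Finset α → Prop
  | 0, W => W = ∅
  | 1, W => W.card = 2 ∧ ∀ x ∈ W, ∀ y ∈ W, ¬ H.Adj x y
  | (d + 2), W => W.Nonempty ∧ SConn H W ∧ ∀ v ∈ W, NP H (d + 1) (lk H W v)

open scoped Classical in
/-- Eulerian complexes of rank `d` -/
def Eul {α : Type*} (H : SimpleGraph α) (d : ℕ) (W : Finset α) : Prop :=
  ∀ σ ∈ cl H W, ∑ τ ∈ (cl H W).filter (fun τ => σ ⊆ τ), (-1 : ℤ) ^ τ.card = (-1) ^ d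

/-- the face-counting polynomial `∑_σ x^|σ|` -/
noncomputable def FP {α : Type*} (H : SimpleGraph α) (W : Finset α) : ℤ[X] :=
  ∑ σ ∈ cl H W, X ^ σ.card

/-- `w = x (1 + x)` -/
noncomputable def w : ℤ[X] := X * (1 + X)

/-- `y = 1 + 2 x` -/
noncomputable def y : ℤ[X] := 1 + 2 * X

/-- `p` is a nonnegative integer combination of the `w^i y^(d - 2 i)`, `0 ≤ i ≤ d / 2`;
for `p = FP H W` this says that the gamma-vector of the complex is nonnegative -/
def GN (d : ℕ) (p : ℤ[X]) : Prop :=
  ∃ a : ℕ → ℕ, p = ∑ i ∈ Finset.range (d / 2 + 1), C ((a i : ℕ) : ℤ) * w ^ i * y ^ (d - 2 * i)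

/-- the hypotheses of the frozen statement `S07409` of `MP_19e880_co`: `S` is a flag homology
`(d-1)`-sphere over the field `k` -/
def IsFHS (k : Type) [Field k] (n d : ℕ) (S : Finset (Finset (Fin n)))
    (r : Finset (Finset (Fin n)) → ℕ → ℕ) : Prop :=
    (∀ F ∈ S, ∀ G : Finset (Fin n), G ⊆ F → G ∈ S) ∧
    (∀ F : Finset (Fin n), (∀ a ∈ F, ∀ b ∈ F, ({a, b} : Finset (Fin n)) ∈ S) → F ∈ S) ∧
    (∀ (L : Finset (Finset (Fin n))) (j : ℕ),
      r L j = Matrix.rank (Matrix.of
        (fun (A : {A : Finset (Fin n) // A ∈ L.filter (fun A => A.card = j - 1)})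
             (B : {B : Finset (Fin n) // B ∈ L.filter (fun B => B.card = j)}) =>
          ∑ v ∈ B.1, if B.1.erase v = A.1
            then (-1 : k) ^ (B.1.filter (fun w => w < v)).card else 0))) ∧
    (∀ F ∈ S, ∀ j : ℕ,
      ((((S.filter (fun G => Disjoint G F ∧ G ∪ F ∈ S)).filter
            (fun G => G.card = j)).card : ℤ)
        - (r (S.filter (fun G => Disjoint G F ∧ G ∪ F ∈ S)) j : ℤ)
        - (r (S.filter (fun G => Disjoint G F ∧ G ∪ F ∈ S)) (j + 1) : ℤ))
        = if j + F.card = d then 1 else 0)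

/-- the 1-skeleton of `S` as a graph on `Fin n` -/
def skel {n : ℕ} (S : Finset (Finset (Fin n))) : SimpleGraph (Fin n) where
  Adj a b := a ≠ b ∧ ({a, b} : Finset (Fin n)) ∈ S
  symm := ⟨fun a b h => ⟨h.1.symm, by rw [Finset.pair_comm]; exact h.2⟩⟩
  loopless := ⟨fun a h => h.1 rfl⟩

/-- the vertices of `S` -/
def vert {n : ℕ} (S : Finset (Finset (Fin n))) : Finset (Fin n) :=
  Finset.univ.filter (fun v => ({v} : Finset (Fin n)) ∈ S)

/-! ## Statements of the parts (subtasks) -/

/-- FS-A1: the faces of `S` are the cliques of its 1-skeleton, and it is Eulerian. -/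
def StmA1 : Prop :=
  ∀ (k : Type) [Field k] (n d : ℕ) (S : Finset (Finset (Fin n)))
    (r : Finset (Finset (Fin n)) → ℕ → ℕ), IsFHS k n d S r →
    cl (skel S) (vert S) = S ∧ Eul (skel S) d (vert S) ∧ ∀ F ∈ S, F.card ≤ d

/-- FS-A2: a flag homology sphere is a flag normal pseudomanifold. -/
def StmA2 : Prop :=
  ∀ (k : Type) [Field k] (n d : ℕ) (S : Finset (Finset (Fin n)))
    (r : Finset (Finset (Fin n)) → ℕ → ℕ), IsFHS k n d S r →
    NP (skel S) d (vert S)

/-- FS-B: from the expansion in `x` to the frozen gamma-expansion. -/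
def StmB : Prop :=
  ∀ (d : ℕ) (f : ℕ → ℕ) (γ : ℕ → ℤ) (a : ℕ → ℤ),
    (∑ j ∈ Finset.range (d + 1), C ((f j : ℕ) : ℤ) * X ^ j * (1 - X) ^ (d - j)
      = ∑ i ∈ Finset.range (d / 2 + 1), C (γ i) * X ^ i * (1 + X) ^ (d - 2 * i)) →
    (∑ j ∈ Finset.range (d + 1), C ((f j : ℕ) : ℤ) * X ^ j
      = ∑ i ∈ Finset.range (d / 2 + 1), C (a i) * w ^ i * y ^ (d - 2 * i)) →
    ∀ i ≤ d / 2, γ i = a i

/-- FS-F: rigidity in rank 4.  If `κ` is a face with four vertices and all six of its edges have
links with exactly four vertices, the complex is the boundary of the cross-polytope. -/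
def StmF : Prop :=
  ∀ (α : Type) (H : SimpleGraph α) (W κ : Finset α), NP H 4 W →
    κ ∈ cl H W → κ.card = 4 →
    (∀ a ∈ κ, ∀ b ∈ κ, a ≠ b → (lk H (lk H W a) b).card = 4) → W.card = 8

end Pool.Agent.W497.FS
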