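import Pool.Agent.W497.FS.Final

set_option autoImplicit false
set_option linter.unusedVariables false

/-! # Conditions on the join factors -/

namespace Pool.Agent.W497.FS

open Polynomial

variable {α : Type} [DecidableEq α] {H : SimpleGraph α}

/-- every join factor `C` contains a face `F` with `g |C| |F|` -/
def FacCond (H : SimpleGraph α) (W : Finset α) (g : ℕ → ℕ → Prop) : Prop :=
  ∀ C ∈ comps H W, ∃ F ∈ cl H W, F ⊆ C ∧ g C.card F.card

theorem FacCond.left {A B : Finset α} (hAB : Full H A B) {g : ℕ → ℕ → Prop}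
    (h : FacCond H (A ∪ B) g) : FacCond H A g := by
  intro C hC
  obtain ⟨F, hF, hFC, hg⟩ := h C (by rw [comps_union hAB]; exact Finset.mem_union_left _ hC)
  exact ⟨F, mem_cl.2 ⟨hFC.trans (mem_comps.1 hC).1, (mem_cl.1 hF).2⟩, hFC, hg⟩

theorem FacCond.right {A B : Finset α} (hAB : Full H A B) {g : ℕ → ℕ → Prop}
    (h : FacCond H (A ∪ B) g) : FacCond H B g := by
  rw [Finset.union_comm] at h
  exact FacCond.left hAB.symm h

theorem FacCond.prm {d : ℕ} {W : Finset α} (hW : NP H d W) (hp : Prm H W) {g : ℕ → ℕ → Prop}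
    (h : FacCond H W g) : ∃ e ≤ d, g W.card e := by
  obtain ⟨F, hF, hFC, hg⟩ := h W (by rw [comps_prm hp]; exact Finset.mem_singleton_self _)
  exact ⟨F.card, hW.card_le hF, hg⟩

theorem gal_fac {g : ℕ → ℕ → Prop}
    (hg : ∀ d W, NP H d W → Eul H d W → Prm H W → ∀ e ≤ d, g W.card e → FP H W ∈ GT ⊤ d)
    {d : ℕ} {W : Finset α} (h : NP H d W) (hE : Eul H d W) (hW : FacCond H W g) :
    FP H W ∈ GT ⊤ d := by
  revert hW
  refine join_induction' (H := H) (P := fun d W => FacCond H W g → FP H W ∈ GT ⊤ d) ?_ ?_ ?_ h hE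
  · intro _
    rw [FP_empty]
    exact one_mem_GT _
  · intro d W h hE hp _ hW
    obtain ⟨e, he, hge⟩ := hW.prm h hp
    exact hg _ W h hE hp e he hge
  · intro d₁ d₂ A B hA hB _ _ _ hAB h1 h2 hW
    rw [FP_join hAB]
    exact GT_mul (h1 (hW.left hAB)) (h2 (hW.right hAB))

theorem cd_fac {g : ℕ → ℕ → Prop}
    (hg : ∀ m W, NP H (2 * m) W → Eul H (2 * m) W → Prm H W → ∀ e ≤ 2 * m, g W.card e →
      0 ≤ (-1) ^ m * lam H W)
    {d : ℕ} {W : Finset α} (h : NP H d W) (hE : Eul H d W) (hW : FacCond H W g) (m : ℕ)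
    (hm : d = 2 * m) : 0 ≤ (-1) ^ m * lam H W := by
  revert hW
  refine join_induction' (H := H) (P := fun d W => ∀ (m : ℕ) (_ : d = 2 * m), FacCond H W g →
    0 ≤ (-1) ^ m * lam H W) ?_ ?_ ?_ h hE m hm
  · intro m hm _
    obtain rfl : m = 0 := by omega
    rw [lam_empty]; norm_num
  · intro d W h hE hp _ m hm hW
    obtain ⟨e, he, hge⟩ := hW.prm h hp
    rw [hm] at h hE
    exact hg m W h hE hp e (by omega) hge
  · intro d₁ d₂ A B hA hB eA eB _ hAB h1 h2 m hm hW
    rw [lam_join hAB]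
    rcases Nat.even_or_odd (d₁ + 1) with ho | ho
    · obtain ⟨a, ha⟩ := ho
      obtain ⟨b, hb⟩ : ∃ b, d₂ + 1 = 2 * b := ⟨m - a, by omega⟩
      have k1 := h1 a (by omega) (hW.left hAB)
      have k2 := h2 b hb (hW.right hAB)
      have hmab : m = a + b := by omega
      rw [hmab, pow_add]
      have : (-1 : ℚ) ^ a * (-1) ^ b * (lam H A * lam H B)
          = ((-1) ^ a * lam H A) * ((-1) ^ b * lam H B) := by ring
      rw [this]
      exact mul_nonneg k1 k2
    · rw [lam_odd eA ho]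
      simp

variable {k : Type} [Field k] {n d : ℕ} {S : Finset (Finset (Fin n))}

theorem mem_comps_iff {C : Finset (Fin n)} : C ∈ comps (skel S) (vert S) ↔ IsFactor S C := by
  rw [mem_comps]
  constructor
  · rintro ⟨h1, h2, h3⟩
    refine ⟨h2.1, fun v hv => mem_vert.1 (h1 hv), fun v hv u hu huS =>
      (h3 v hv u (mem_vert.2 huS) hu).2, fun A hA hne hadj => ?_⟩
    by_contra hneq
    obtain ⟨a, ha, b, hb, hbA, hab⟩ := h2.2 A hA hne hneq
    exact hab ⟨fun h => hbA (h ▸ ha), hadj a ha b hb hbA⟩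
  · rintro ⟨h1, h2, h3, h4⟩
    refine ⟨fun v hv => mem_vert.2 (h2 v hv), ⟨h1, fun A hA hne hneq => ?_⟩, fun c hc x hx hxC => ?_⟩
    · by_contra hcon
      apply hneq
      refine h4 A hA hne (fun v hv u hu huA => ?_)
      by_contra huv
      exact hcon ⟨v, hv, u, hu, huA, fun h => huv h.2⟩
    · exact ⟨fun h => hxC (h ▸ hc), h3 c hc x hxC (mem_vert.1 hx)⟩

theorem IsFlagSphere.facCond (h : IsFlagSphere k d S) {g : ℕ → ℕ → Prop}
    (hg : ∀ C, IsFactor S C → ∃ F ∈ S, F ⊆ C ∧ g C.card F.card) :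
    FacCond (skel S) (vert S) g := by
  intro C hC
  rw [h.cl_eq]
  exact hg C (mem_comps_iff.1 hC)

/-- Gal, every join factor of dimension `e - 1` has at most `3 e` vertices -/
theorem gal_fac_one (h : IsFlagSphere k d S)
    (hN : ∀ C, IsFactor S C → ∃ F ∈ S, F ⊆ C ∧ C.card ≤ 3 * F.card)
    {γ : ℕ → ℤ} (hγ : IsGamma d S γ) : ∀ i ≤ d / 2, 0 ≤ γ i := by
  refine h.gamma_nonneg (gal_fac (g := fun c e => c ≤ 3 * e) ?_ h.np h.eul (h.facCond hN)) hγ
  intro d W hW hE hp e he hg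
  refine gal_defect_le_one stmDel hW hE ?_
  rw [comps_prm hp, Finset.card_singleton]
  omega

/-- Gal, every join factor of dimension `e - 1` has at most `2 e + 6` vertices -/
theorem gal_fac_two (h : IsFlagSphere k d S)
    (hN : ∀ C, IsFactor S C → ∃ F ∈ S, F ⊆ C ∧ C.card ≤ 2 * F.card + 6)
    {γ : ℕ → ℤ} (hγ : IsGamma d S γ) : ∀ i ≤ d / 2, 0 ≤ γ i := by
  refine h.gamma_nonneg (gal_fac (g := fun c e => c ≤ 2 * e + 6) ?_ h.np h.eul (h.facCond hN)) hγ
  intro d W hW hE hp e he hg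
  exact gal_few stmF stmF2 hW hE (by omega)

/-- Charney-Davis, every join factor of dimension `e - 1` has at most `3 e` vertices -/
theorem cd_fac_one {m : ℕ} (h : IsFlagSphere k (2 * m) S)
    (hN : ∀ C, IsFactor S C → ∃ F ∈ S, F ⊆ C ∧ C.card ≤ 3 * F.card) :
    0 ≤ (-1) ^ m * FS.omega S := by
  rw [h.omega_eq]
  refine cd_fac (g := fun c e => c ≤ 3 * e) ?_ h.np h.eul (h.facCond hN) m rfl
  intro m W hW hE hp e he hg
  refine cd_defect_one hW hE ?_ m rfl
  rw [comps_prm hp, Finset.card_singleton]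
  omega

/-- Charney-Davis, every join factor of dimension `e - 1` has at most `5 e / 2 + 3` vertices -/
theorem cd_fac_two {m : ℕ} (h : IsFlagSphere k (2 * m) S)
    (hN : ∀ C, IsFactor S C → ∃ F ∈ S, F ⊆ C ∧ 2 * C.card ≤ 5 * F.card + 6) :
    0 ≤ (-1) ^ m * FS.omega S := by
  rw [h.omega_eq]
  refine cd_fac (g := fun c e => 2 * c ≤ 5 * e + 6) ?_ h.np h.eul (h.facCond hN) m rfl
  intro m W hW hE hp e he hg
  exact cd_few stmF stmF2 hW hE m rfl (by omega)

end Pool.Agent.W497.FS
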