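import Mathlib

set_option autoImplicit false

/-!
# Faces far from a vertex: the definitions used in the results
-/

namespace Pool.Agent.W497.FS

/-- the link of `F` in `L` -/
def link {n : ℕ} (L : Finset (Finset (Fin n))) (F : Finset (Fin n)) : Finset (Finset (Fin n)) :=
  L.filter (fun G => Disjoint G F ∧ G ∪ F ∈ L)

/-- `G` is a face of `L` none of whose vertices is `v` or joined to `v` by an edge of `L` -/
def IsFar {n : ℕ} (L : Finset (Finset (Fin n))) (v : Fin n) (G : Finset (Fin n)) : Prop :=
  G ∈ L ∧ ∀ g ∈ G, ({v, g} : Finset (Fin n)) ∉ L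

/-- no face of `L` with four or more vertices is far from a vertex of `L` -/
def NoFourFar {n : ℕ} (L : Finset (Finset (Fin n))) : Prop :=
  ∀ v, ({v} : Finset (Fin n)) ∈ L → ∀ G, IsFar L v G → G.card ≤ 3

/-- the vertex `v` of `L` is good: no face with four or more vertices is far from `v`, and if a face
`T` with three vertices is far from `v`, the links of the three edges of `T` satisfy `NoFourFar` -/
def IsGood {n : ℕ} (L : Finset (Finset (Fin n))) (v : Fin n) : Prop :=
  ({v} : Finset (Fin n)) ∈ L ∧ (∀ G, IsFar L v G → G.card ≤ 3) ∧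
    ∀ T, IsFar L v T → T.card = 3 → ∀ t ∈ T, NoFourFar (link L (T.erase t))

end Pool.Agent.W497.FS
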