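import Pool.Agent.W497.FS.Far
import Pool.Agent.W497.FS.Claw
import Pool.Agent.W497.FS.Final

set_option autoImplicit false
set_option linter.unusedVariables false

/-! # Gal's conjecture for spheres whose links have good vertices -/

namespace Pool.Agent.W497.FS

open Polynomial

variable {n : ℕ} {H : SimpleGraph (Fin n)}

theorem link_cl {X E : Finset (Fin n)} (hE : E ∈ cl H X) : link (cl H X) E = cl H (lkF H X E) := by
  ext G
  rw [link, Finset.mem_filter]
  constructor
  · rintro ⟨h1, h2, h3⟩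
    obtain ⟨h4, h5⟩ := mem_cl.1 h3
    refine mem_cl.2 ⟨fun x hx => mem_lkF.2 ⟨h4 (Finset.mem_union_left _ hx), fun y hy => ?_⟩,
      (mem_cl.1 h1).2⟩
    exact h5 y (Finset.mem_union_right _ hy) x (Finset.mem_union_left _ hx)
      (fun h => Finset.disjoint_left.1 h2 hx (h ▸ hy))
  · intro h
    refine ⟨cl_mono lkF_subset h, (disjoint_of_mem_cl_lkF h).symm, ?_⟩
    rw [Finset.union_comm]
    exact union_mem_cl hE h

theorem far_iff {X : Finset (Fin n)} {v : Fin n} (hv : v ∈ X) {G : Finset (Fin n)} :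
    IsFar (cl H X) v G ↔ G ∈ cl H (nn H X v) := by
  constructor
  · rintro ⟨h1, h2⟩
    refine mem_cl.2 ⟨fun g hg => ?_, (mem_cl.1 h1).2⟩
    have hgX := (mem_cl.1 h1).1 hg
    refine mem_nn.2 ⟨hgX, fun h => h2 g hg ?_, fun h => h2 g hg ?_⟩
    · rw [h, Finset.pair_eq_singleton]
      exact singleton_mem_cl hv
    · refine mem_cl.2 ⟨fun z hz => ?_, fun z hz z' hz' hne => ?_⟩
      · rcases Finset.mem_insert.1 hz with h' | h'
        · rwa [h']
        · rwa [Finset.mem_singleton.1 h']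
      · rcases Finset.mem_insert.1 hz with h' | h' <;> rcases Finset.mem_insert.1 hz' with h'' | h''
        · exact absurd (h'.trans h''.symm) hne
        · rw [h', Finset.mem_singleton.1 h'']; exact h
        · rw [h'', Finset.mem_singleton.1 h']; exact h.symm
        · exact absurd ((Finset.mem_singleton.1 h').trans (Finset.mem_singleton.1 h'').symm) hne
  · intro h
    refine ⟨cl_mono nn_subset h, fun g hg hmem => ?_⟩
    obtain ⟨h1, h2, h3⟩ := mem_nn.1 ((mem_cl.1 h).1 hg)
    exact h3 ((mem_cl.1 hmem).2 v (Finset.mem_insert_self _ _) g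
      (Finset.mem_insert_of_mem (Finset.mem_singleton_self g)) h2.symm)

theorem singleton_mem_cl_iff {X : Finset (Fin n)} {v : Fin n} :
    ({v} : Finset (Fin n)) ∈ cl H X ↔ v ∈ X :=
  ⟨fun h => (mem_cl.1 h).1 (Finset.mem_singleton_self v), singleton_mem_cl⟩

theorem noFourFar_iff {X : Finset (Fin n)} (h : NoFourFar (cl H X)) : K14 H X :=
  fun v hv κ hκ => h v (singleton_mem_cl hv) κ ((far_iff hv).2 hκ)

theorem cc_of_good {d : ℕ} {W : Finset (Fin n)}
    (h : ∀ F ∈ cl H W, F.card < d → ∃ v, IsGood (link (cl H W) F) v) : CC H d W := by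
  intro κ hκ hc
  obtain ⟨v, h1, h2, h3⟩ := h κ hκ hc
  rw [link_cl hκ] at h1 h2 h3
  have hv := singleton_mem_cl_iff.1 h1
  refine ⟨v, hv, fun G hG => h2 G ((far_iff hv).2 hG), fun T hT hTc t ht => ?_⟩
  have h4 := h3 T ((far_iff hv).2 hT) hTc t ht
  rw [link_cl (cl_of_subset (cl_mono nn_subset hT) (Finset.erase_subset _ _))] at h4
  exact noFourFar_iff h4

variable {k : Type} [Field k] {d : ℕ} {S : Finset (Finset (Fin n))}

theorem gal_good (hHR : StmHR) (h : IsFlagSphere k d S)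
    (hG : ∀ F ∈ S, F.card < d → ∃ v, IsGood (link S F) v)
    {γ : ℕ → ℤ} (hγ : IsGamma d S γ) : ∀ i ≤ d / 2, 0 ≤ γ i := by
  obtain ⟨r, hr⟩ := h
  have hS : HS k (skel S) d (vert S) := hHR k n d S r hr
  have h : IsFlagSphere k d S := ⟨r, hr⟩
  refine h.gamma_nonneg (gal_cc d h.np h.eul hS (cc_of_good ?_)) hγ
  intro F hF hc
  rw [h.cl_eq] at hF ⊢
  exact hG F hF hc

end Pool.Agent.W497.FS
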