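import Pool.Agent.W497.FS.Formula2

set_option autoImplicit false
set_option linter.unusedSectionVars false

/-! # Cones of gamma-vectors -/

namespace Pool.Agent.W497.FS

open Polynomial

/-- generators `w^i y^j` with `2 i + j = d`, and their negatives when `t ≤ i` -/
noncomputable def gens (t : ℕ∞) (d : ℕ) : Set ℤ[X] :=
  {p | ∃ i j : ℕ, 2 * i + j = d ∧ (p = w ^ i * y ^ j ∨ (t ≤ (i : ℕ∞) ∧ p = -(w ^ i * y ^ j)))}

/-- combinations of `w^i y^(d-2i)` whose coefficients with `i < t` are nonnegative -/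
noncomputable def GT (t : ℕ∞) (d : ℕ) : AddSubmonoid ℤ[X] := AddSubmonoid.closure (gens t d)

theorem GT_mono {t t' : ℕ∞} (h : t ≤ t') (d : ℕ) : GT t' d ≤ GT t d := by
  apply AddSubmonoid.closure_mono
  rintro p ⟨i, j, hij, hp⟩
  refine ⟨i, j, hij, ?_⟩
  rcases hp with hp | ⟨h1, h2⟩
  · exact Or.inl hp
  · exact Or.inr ⟨h.trans h1, h2⟩

theorem GT_of_lt {t : ℕ} {d : ℕ} (h : d < 2 * t) (t' : ℕ∞) : GT (t : ℕ∞) d ≤ GT t' d := by
  apply AddSubmonoid.closure_mono
  rintro p ⟨i, j, hij, hp⟩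
  refine ⟨i, j, hij, ?_⟩
  rcases hp with hp | ⟨h1, h2⟩
  · exact Or.inl hp
  · have : t ≤ i := by exact_mod_cast h1
    omega

theorem gen_mem (t : ℕ∞) {i j d : ℕ} (h : 2 * i + j = d) : w ^ i * y ^ j ∈ GT t d :=
  AddSubmonoid.subset_closure ⟨i, j, h, Or.inl rfl⟩

theorem neg_gen_mem {t : ℕ∞} {i j d : ℕ} (h : 2 * i + j = d) (ht : t ≤ (i : ℕ∞)) :
    -(w ^ i * y ^ j) ∈ GT t d :=
  AddSubmonoid.subset_closure ⟨i, j, h, Or.inr ⟨ht, rfl⟩⟩

theorem one_mem_GT (t : ℕ∞) : (1 : ℤ[X]) ∈ GT t 0 := by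
  have := gen_mem t (i := 0) (j := 0) (d := 0) rfl
  simpa using this

theorem GT_mul {t : ℕ∞} {d e : ℕ} {p q : ℤ[X]} (hp : p ∈ GT t d) (hq : q ∈ GT t e) :
    p * q ∈ GT t (d + e) := by
  induction hp using AddSubmonoid.closure_induction with
  | mem p hp =>
    induction hq using AddSubmonoid.closure_induction with
    | mem q hq =>
      obtain ⟨i, j, hij, hp⟩ := hp
      obtain ⟨i', j', hij', hq⟩ := hq
      have e1 : 2 * (i + i') + (j + j') = d + e := by omega
      have e2 : w ^ i * y ^ j * (w ^ i' * y ^ j') = w ^ (i + i') * y ^ (j + j') := by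
        rw [pow_add, pow_add]; ring
      rcases hp with rfl | ⟨h1, rfl⟩ <;> rcases hq with rfl | ⟨h2, rfl⟩
      · rw [e2]; exact gen_mem t e1
      · rw [mul_neg, e2]
        refine neg_gen_mem e1 (h2.trans ?_)
        exact_mod_cast Nat.le_add_left i' i
      · rw [neg_mul, e2]
        refine neg_gen_mem e1 (h1.trans ?_)
        exact_mod_cast Nat.le_add_right i i'
      · rw [neg_mul_neg, e2]; exact gen_mem t e1
    | zero => rw [mul_zero]; exact zero_mem _
    | add a b _ _ ha hb => rw [mul_add]; exact add_mem ha hb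
  | zero => rw [zero_mul]; exact zero_mem _
  | add a b _ _ ha hb => rw [add_mul]; exact add_mem ha hb

theorem GT_y {t : ℕ∞} {d : ℕ} {p : ℤ[X]} (hp : p ∈ GT t d) : y * p ∈ GT t (d + 1) := by
  have h := gen_mem t (i := 0) (j := 1) (d := 1) rfl
  simp only [pow_zero, pow_one, one_mul] at h
  rw [add_comm]
  exact GT_mul h hp

theorem GT_w {t : ℕ∞} {d : ℕ} {p : ℤ[X]} (hp : p ∈ GT t d) : w * p ∈ GT (t + 1) (d + 2) := by
  induction hp using AddSubmonoid.closure_induction with
  | mem p hp =>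
    obtain ⟨i, j, hij, hp⟩ := hp
    have e1 : 2 * (i + 1) + j = d + 2 := by omega
    rcases hp with rfl | ⟨h1, rfl⟩
    · have : w * (w ^ i * y ^ j) = w ^ (i + 1) * y ^ j := by rw [pow_succ]; ring
      rw [this]; exact gen_mem _ e1
    · have : w * -(w ^ i * y ^ j) = -(w ^ (i + 1) * y ^ j) := by rw [pow_succ]; ring
      rw [this]
      refine neg_gen_mem e1 ?_
      push_cast
      exact add_le_add_left h1 1
  | zero => rw [mul_zero]; exact zero_mem _
  | add a b _ _ ha hb => rw [mul_add]; exact add_mem ha hb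

theorem GT_w0 {d : ℕ} {p : ℤ[X]} (hp : p ∈ GT 0 d) : w * p ∈ GT 0 (d + 2) :=
  GT_mono zero_le _ (GT_w hp)

theorem GT_neg {d : ℕ} {p : ℤ[X]} (hp : p ∈ GT 0 d) : -p ∈ GT 0 d := by
  induction hp using AddSubmonoid.closure_induction with
  | mem p hp =>
    obtain ⟨i, j, hij, hp⟩ := hp
    rcases hp with rfl | ⟨h1, rfl⟩
    · exact neg_gen_mem hij zero_le
    · rw [neg_neg]; exact gen_mem _ hij
  | zero => rw [neg_zero]; exact zero_mem _
  | add a b _ _ ha hb => rw [neg_add]; exact add_mem ha hb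

theorem w_eval_zero : w.eval 0 = 0 := by simp [w]
theorem y_eval_zero : y.eval 0 = 1 := by simp [y]

theorem GT_one_of_eval {d : ℕ} {p : ℤ[X]} (hp : p ∈ GT 0 d) (h0 : 0 ≤ p.eval 0) :
    p ∈ GT 1 d := by
  have key : ∃ c : ℤ, ∃ q ∈ GT 1 d, q.eval 0 = 0 ∧ p = c • y ^ d + q := by
    clear h0
    induction hp using AddSubmonoid.closure_induction with
    | mem p hp =>
      obtain ⟨i, j, hij, hp⟩ := hp
      rcases i with _ | i
      · obtain rfl : j = d := by omega
        rcases hp with rfl | ⟨_, rfl⟩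
        · exact ⟨1, 0, zero_mem _, by simp, by simp⟩
        · exact ⟨-1, 0, zero_mem _, by simp, by simp⟩
      · refine ⟨0, p, ?_, ?_, by simp⟩
        · rcases hp with rfl | ⟨_, rfl⟩
          · exact gen_mem _ hij
          · exact neg_gen_mem hij (by exact_mod_cast Nat.le_add_left 1 i)
        · rcases hp with rfl | ⟨_, rfl⟩ <;> simp [w_eval_zero, y_eval_zero]
    | zero => exact ⟨0, 0, zero_mem _, by simp, by simp⟩
    | add a b _ _ ha hb =>
      obtain ⟨c, q, hq, hq0, rfl⟩ := ha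
      obtain ⟨c', q', hq', hq0', rfl⟩ := hb
      refine ⟨c + c', q + q', add_mem hq hq', by simp [hq0, hq0'], ?_⟩
      rw [add_smul]; ring
  obtain ⟨c, q, hq, hq0, rfl⟩ := key
  have hc : 0 ≤ c := by
    simpa [hq0, y_eval_zero] using h0
  obtain ⟨n, rfl⟩ := Int.eq_ofNat_of_zero_le hc
  refine add_mem ?_ hq
  have h1 : y ^ d ∈ GT 1 d := by
    have := gen_mem 1 (i := 0) (j := d) (d := d) (by omega)
    simpa using this
  have : ((n : ℤ) • y ^ d : ℤ[X]) = n • y ^ d := by simp
  rw [this]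
  exact AddSubmonoid.nsmul_mem _ h1 n

/-- coefficients of an element of `GT t d` -/
theorem GT_coeffs {t : ℕ∞} {d : ℕ} {p : ℤ[X]} (hp : p ∈ GT t d) :
    ∃ a : ℕ → ℤ, p = ∑ i ∈ Finset.range (d / 2 + 1), C (a i) * w ^ i * y ^ (d - 2 * i) ∧
      ∀ i : ℕ, (i : ℕ∞) < t → 0 ≤ a i := by
  induction hp using AddSubmonoid.closure_induction with
  | mem p hp =>
    obtain ⟨i, j, hij, hp⟩ := hp
    have hi : i ∈ Finset.range (d / 2 + 1) := by rw [Finset.mem_range]; omega
    have hj : d - 2 * i = j := by omega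
    rcases hp with rfl | ⟨h1, rfl⟩
    · refine ⟨fun n => if n = i then 1 else 0, ?_, fun n _ => ?_⟩
      · rw [Finset.sum_eq_single_of_mem i hi]
        · simp [hj]
        · intro b _ hb; simp [hb]
      · dsimp only; split_ifs <;> norm_num
    · refine ⟨fun n => if n = i then -1 else 0, ?_, fun n hn => ?_⟩
      · rw [Finset.sum_eq_single_of_mem i hi]
        · simp [hj]
        · intro b _ hb; simp [hb]
      · dsimp only
        split_ifs with h
        · subst h; exact absurd h1 (not_le.2 hn)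
        · exact le_rfl
  | zero => exact ⟨fun _ => 0, by simp, fun _ _ => le_rfl⟩
  | add a b _ _ ha hb =>
    obtain ⟨f, rfl, hf⟩ := ha
    obtain ⟨g, rfl, hg⟩ := hb
    refine ⟨fun i => f i + g i, ?_, fun i hi => add_nonneg (hf i hi) (hg i hi)⟩
    rw [← Finset.sum_add_distrib]
    refine Finset.sum_congr rfl (fun i _ => ?_)
    rw [C_add]; ring

theorem sj_mem (j : ℕ) : sj (X : ℤ[X]) (j + 1) ∈ GT 0 j := by
  have key : ∀ j, sj (X : ℤ[X]) (j + 1) ∈ GT 0 j ∧ sj (X : ℤ[X]) (j + 2) ∈ GT 0 (j + 1) := by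
    intro j
    induction j with
    | zero =>
      refine ⟨by rw [sj_one]; exact one_mem_GT 0, ?_⟩
      rw [sj_two]
      have := GT_y (one_mem_GT 0)
      rwa [mul_one] at this
    | succ j ih =>
      refine ⟨ih.2, ?_⟩
      have h1 : sj (X : ℤ[X]) (j + 1 + 2) = y * sj X (j + 2) + -(w * sj X (j + 1)) := by
        rw [sj_succ, y, w]; ring
      rw [h1]
      refine add_mem (GT_y ih.2) (GT_neg ?_)
      exact GT_w0 ih.1
  exact (key j).1

variable {α : Type*} {H : SimpleGraph α} [DecidableEq α]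

/-- the bracket in the main formula -/
noncomputable def Bk (H : SimpleGraph α) (W : Finset α) (v : α) : ℤ[X] :=
  ∑ κ ∈ cl H (nn H W v), (-1) ^ κ.card * sj X (κ.card - 1) * FP H (lkF H W κ)

theorem FP_vertex {d : ℕ} {W : Finset α} (h : Eul H d W) {v : α} (hv : v ∈ W) :
    FP H W = y * FP H (lk H W v) + w * Bk H W v := by
  have := fe_vertex h hv (X : ℤ[X])
  rw [y, w, Bk]
  exact this

theorem FP_eval_zero (W : Finset α) : (FP H W).eval 0 = 1 := by
  rw [FP, eval_finsetSum, ← Finset.add_sum_erase _ _ (empty_mem_cl (H := H) (W := W))]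
  simp only [Finset.card_empty, pow_zero, eval_one]
  rw [Finset.sum_eq_zero, add_zero]
  intro σ hσ
  have hpos : σ.card ≠ 0 := by
    rw [Finset.card_ne_zero]
    exact Finset.nonempty_iff_ne_empty.2 (Finset.mem_erase.1 hσ).1
  simp [hpos]

theorem cl_nn_card_le {d : ℕ} {W : Finset α} (h : NP H d W) {v : α} {κ : Finset α}
    (hκ : κ ∈ cl H (nn H W v)) : κ.card ≤ d := h.card_le (cl_mono nn_subset hκ)

theorem neg_one_pow_mem {d n : ℕ} {p : ℤ[X]} (hp : p ∈ GT 0 d) : (-1) ^ n * p ∈ GT 0 d := by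
  rcases neg_one_pow_eq_or ℤ[X] n with h | h
  · rw [h, one_mul]; exact hp
  · rw [h, neg_one_mul]; exact GT_neg hp

theorem Bk_rank_one {W : Finset α} (h : NP H 1 W) (v : α) : Bk H W v = 0 := by
  rw [Bk]
  refine Finset.sum_eq_zero (fun κ hκ => ?_)
  have h1 := cl_nn_card_le h hκ
  have : κ.card - 1 = 0 := by omega
  rw [this, sj_zero]; ring

theorem Bk_eval_zero {d : ℕ} {W : Finset α} (hE : Eul H d W) {v : α} (hv : v ∈ W) :
    (Bk H W v).eval 0 = (nn H W v).card - 1 := by
  have h1 := euler_nn hE hv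
  have h2 : ∀ κ ∈ cl H (nn H W v), ((-1) ^ κ.card * sj (X : ℤ[X]) (κ.card - 1) *
      FP H (lkF H W κ)).eval 0 = (-1 : ℤ) ^ κ.card - (if κ.card = 0 then 1 else 0)
        + (if κ.card = 1 then 1 else 0) := by
    intro κ _
    rw [eval_mul, eval_mul, FP_eval_zero, sj]
    rcases hn : κ.card with _ | _ | n
    · simp
    · simp
    · simp
  rw [Bk, eval_finsetSum, Finset.sum_congr rfl h2, Finset.sum_add_distrib,
    Finset.sum_sub_distrib, h1, Finset.sum_ite, Finset.sum_ite]
  have h3 : (cl H (nn H W v)).filter (fun κ => κ.card = 0) = {∅} := by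
    ext κ
    rw [Finset.mem_filter, Finset.card_eq_zero, Finset.mem_singleton]
    constructor
    · exact fun h => h.2
    · rintro rfl; exact ⟨empty_mem_cl, rfl⟩
  have h4 : ((cl H (nn H W v)).filter (fun κ => κ.card = 1)).card = (nn H W v).card := by
    symm
    refine Finset.card_bij (fun a _ => {a}) ?_ ?_ ?_
    · intro a ha
      exact Finset.mem_filter.2 ⟨singleton_mem_cl ha, Finset.card_singleton a⟩
    · intro a _ b _ hab
      exact Finset.singleton_injective hab
    · intro κ hκ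
      obtain ⟨h5, h6⟩ := Finset.mem_filter.1 hκ
      obtain ⟨a, rfl⟩ := Finset.card_eq_one.1 h6
      exact ⟨a, (mem_cl.1 h5).1 (Finset.mem_singleton_self a), rfl⟩
  rw [h3]
  simp only [Finset.sum_const, Finset.card_singleton, h4]
  simp
  ring

/-- **every flag Eulerian normal pseudomanifold has a gamma expansion with `γ₀, γ₁ ≥ 0`** -/
theorem FP_mem_two {d : ℕ} {W : Finset α} (h : NP H d W) (hE : Eul H d W) :
    FP H W ∈ GT 2 d := by
  induction hn : W.card using Nat.strong_induction_on generalizing d W with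
  | _ n ih =>
    subst hn
    rcases d with _ | d
    · have h0 : W = ∅ := h
      rw [h0, FP_eq, fe_empty]
      exact one_mem_GT 2
    obtain ⟨v, hv⟩ := h.nonempty
    have hlt : (lk H W v).card < W.card := by
      have := card_eq_lk_nn (H := H) hv
      omega
    have h1 := ih _ hlt (h.lk hv) (hE.lk_succ hv) rfl
    rw [FP_vertex hE hv]
    refine add_mem (GT_y h1) ?_
    rcases d with _ | d
    · rw [Bk_rank_one h, mul_zero]; exact zero_mem _
    have hB : Bk H W v ∈ GT 1 d := by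
      refine GT_one_of_eval ?_ ?_
      · rw [Bk]
        refine sum_mem (fun κ hκ => ?_)
        have h2 := cl_nn_card_le h hκ
        rw [mul_assoc]
        refine neg_one_pow_mem ?_
        rcases hc : κ.card with _ | _ | k
        · simp [sj_zero]
        · simp [sj_zero]
        · obtain ⟨e, he, hNP, -, hcard⟩ := h.lkF (cl_mono nn_subset hκ)
          have hlt' : (lkF H W κ).card < W.card := by omega
          have hEκ : Eul H e (lkF H W κ) :=
            (hE.lkF (cl_mono nn_subset hκ)).of_parity (by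
              rw [← he, add_assoc, pow_add, pow_add (-1 : ℤ) κ.card κ.card,
                neg_one_pow_sq, mul_one])
          have h3 := ih _ hlt' hNP hEκ rfl
          have h4 := GT_mul (sj_mem k) (GT_mono (t' := 2) zero_le e h3)
          have h5 : k + e = d := by omega
          rw [h5] at h4
          have h6 : k + 1 + 1 - 1 = k + 1 := by omega
          rw [h6]
          exact h4
      · rw [Bk_eval_zero hE hv]
        have := Finset.card_pos.2 (h.nn_nonempty hv)
        omega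
    have := GT_w hB
    have h12 : (1 : ℕ∞) + 1 = 2 := by norm_num
    rwa [h12] at this

theorem Eul.lkF_rank {d e : ℕ} {W κ : Finset α} (hE : Eul H d W) (hκ : κ ∈ cl H W)
    (he : e + κ.card = d) : Eul H e (FS.lkF H W κ) :=
  (hE.lkF hκ).of_parity (by
    rw [← he, add_assoc, pow_add, pow_add (-1 : ℤ) κ.card κ.card, neg_one_pow_sq, mul_one])

theorem Bk_mem_one {d : ℕ} {W : Finset α} (h : NP H (d + 2) W) (hE : Eul H (d + 2) W) {v : α}
    (hv : v ∈ W) : Bk H W v ∈ GT 1 d := by
  refine GT_one_of_eval ?_ ?_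
  · rw [Bk]
    refine sum_mem (fun κ hκ => ?_)
    have h2 := cl_nn_card_le h hκ
    rw [mul_assoc]
    refine neg_one_pow_mem ?_
    rcases hc : κ.card with _ | _ | k
    · simp [sj_zero]
    · simp [sj_zero]
    · obtain ⟨e, he, hNP, -, hcard⟩ := h.lkF (cl_mono nn_subset hκ)
      have hEκ : Eul H e (lkF H W κ) := hE.lkF_rank (cl_mono nn_subset hκ) he
      have h3 := FP_mem_two hNP hEκ
      have h4 := GT_mul (sj_mem k) (GT_mono (t' := 2) zero_le e h3)
      have h5 : k + e = d := by omega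
      rw [h5] at h4
      have h6 : k + 1 + 1 - 1 = k + 1 := by omega
      rw [h6]
      exact h4
  · rw [Bk_eval_zero hE hv]
    have := Finset.card_pos.2 (h.nn_nonempty hv)
    omega

/-- monotonicity at the level of `γ₁` -/
theorem mono_two {d : ℕ} {W : Finset α} (h : NP H (d + 1) W) (hE : Eul H (d + 1) W) {v : α}
    (hv : v ∈ W) : FP H W - y * FP H (lk H W v) ∈ GT 2 (d + 1) := by
  rw [FP_vertex hE hv, add_sub_cancel_left]
  rcases d with _ | d
  · rw [Bk_rank_one h, mul_zero]; exact zero_mem _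
  · have := GT_w (Bk_mem_one h hE hv)
    have h12 : (1 : ℕ∞) + 1 = 2 := by norm_num
    rwa [h12] at this

theorem lkF_insert {W κ : Finset α} {v : α} : lkF H W (insert v κ) = lk H (lkF H W κ) v := by
  rw [← lkF_singleton, lkF_lkF, Finset.union_comm, ← Finset.insert_eq]

/-- with at most three non-neighbours the bracket is good to the next order -/
theorem Bk_mem_of_card_le_three {d : ℕ} {W : Finset α} (h : NP H (d + 2) W)
    (hE : Eul H (d + 2) W) {v : α} (hm : (nn H W v).card ≤ 3) {t : ℕ∞}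
    (hF : ∀ κ ∈ cl H (nn H W v), κ.card = 2 → FP H (lkF H W κ) ∈ GT t d)
    (hM : nn H W v ∈ cl H W → (nn H W v).card = 3 → ∃ c ∈ nn H W v,
      FP H (lkF H W ((nn H W v).erase c)) - y * FP H (lkF H W (nn H W v)) ∈ GT t d) :
    Bk H W v ∈ GT t d := by
  have hterm : ∀ κ ∈ cl H (nn H W v), κ.card ≠ 3 →
      (-1) ^ κ.card * sj (X : ℤ[X]) (κ.card - 1) * FP H (lkF H W κ) ∈ GT t d := by
    intro κ hκ h3
    have hle : κ.card ≤ 3 := (Finset.card_le_card (mem_cl.1 hκ).1).trans hm
    have hcases : κ.card = 0 ∨ κ.card = 1 ∨ κ.card = 2 := by omega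
    rcases hcases with hc | hc | hc
    · rw [hc]; simp [sj_zero]
    · rw [hc]; simp [sj_zero]
    · have := hF κ hκ hc
      rw [hc]
      simpa [sj_one] using this
  by_cases hc3 : (nn H W v).card = 3 ∧ nn H W v ∈ cl H W
  · obtain ⟨hc3, hMcl⟩ := hc3
    obtain ⟨c, hc, hmem⟩ := hM hMcl hc3
    have hM' : nn H W v ∈ cl H (nn H W v) := by
      rw [mem_cl] at hMcl ⊢
      exact ⟨Finset.Subset.refl _, hMcl.2⟩
    have he : (nn H W v).erase c ∈ cl H (nn H W v) := cl_of_subset hM' (Finset.erase_subset _ _)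
    have hecard : ((nn H W v).erase c).card = 2 := by
      rw [Finset.card_erase_of_mem hc, hc3]
    have hne : (nn H W v).erase c ≠ nn H W v := fun hEq => by
      rw [hEq] at hecard; omega
    have he' : (nn H W v).erase c ∈ (cl H (nn H W v)).erase (nn H W v) :=
      Finset.mem_erase.2 ⟨hne, he⟩
    rw [Bk, ← Finset.add_sum_erase _ _ hM', ← Finset.add_sum_erase _ _ he', ← add_assoc]
    refine add_mem ?_ (sum_mem (fun κ hκ => ?_))
    · rw [hc3, hecard]
      have : (-1) ^ 3 * sj (X : ℤ[X]) (3 - 1) * FP H (lkF H W (nn H W v)) +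
          (-1) ^ 2 * sj (X : ℤ[X]) (2 - 1) * FP H (lkF H W ((nn H W v).erase c)) =
          FP H (lkF H W ((nn H W v).erase c)) - y * FP H (lkF H W (nn H W v)) := by
        rw [show 3 - 1 = 2 from rfl, show 2 - 1 = 1 from rfl, sj_one, sj_two, y]; ring
      rw [this]; exact hmem
    · obtain ⟨_, hκ2⟩ := Finset.mem_erase.1 hκ
      obtain ⟨hκ3, hκ4⟩ := Finset.mem_erase.1 hκ2
      refine hterm κ hκ4 (fun hk => hκ3 ?_)
      exact Finset.eq_of_subset_of_card_le (mem_cl.1 hκ4).1 (by omega)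
  · rw [Bk]
    refine sum_mem (fun κ hκ => hterm κ hκ (fun hk => hc3 ?_))
    have hle := Finset.card_le_card (mem_cl.1 hκ).1
    have heq : κ = nn H W v := Finset.eq_of_subset_of_card_le (mem_cl.1 hκ).1 (by omega)
    refine ⟨by omega, ?_⟩
    rw [← heq]
    exact cl_mono nn_subset hκ

theorem Bk_mem_two {d : ℕ} {W : Finset α} (h : NP H (d + 2) W) (hE : Eul H (d + 2) W) {v : α}
    (hm : (nn H W v).card ≤ 3) : Bk H W v ∈ GT 2 d := by
  refine Bk_mem_of_card_le_three h hE hm ?_ ?_
  · intro κ hκ hc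
    obtain ⟨e, he, hNP, -, -⟩ := h.lkF (cl_mono nn_subset hκ)
    obtain rfl : e = d := by omega
    exact FP_mem_two hNP (hE.lkF_rank (cl_mono nn_subset hκ) he)
  · intro hMcl hc3
    obtain ⟨c, hc⟩ : (nn H W v).Nonempty := by rw [← Finset.card_pos]; omega
    refine ⟨c, hc, ?_⟩
    have hcl : (nn H W v).erase c ∈ cl H W := cl_of_subset hMcl (Finset.erase_subset _ _)
    obtain ⟨e, he, hNP, -, -⟩ := h.lkF hcl
    have hecard : ((nn H W v).erase c).card = 2 := by
      rw [Finset.card_erase_of_mem hc, hc3]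
    obtain rfl : e = d := by omega
    have hcl' : c ∈ lkF H W ((nn H W v).erase c) := by
      rw [mem_cl] at hMcl
      exact mem_lkF.2 ⟨hMcl.1 hc, fun z hz => hMcl.2 z (Finset.mem_of_mem_erase hz) c hc
        (Finset.ne_of_mem_erase hz)⟩
    obtain ⟨d', rfl⟩ := hNP.rank_pos hcl'
    have h1 := mono_two hNP (hE.lkF_rank hcl he) hcl'
    rw [← lkF_insert, Finset.insert_erase hc] at h1
    exact h1

end Pool.Agent.W497.FS
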