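import Pool.Agent.W497.FS.Gamma

set_option autoImplicit false
set_option linter.unusedSectionVars false
set_option linter.unusedVariables false

/-! # Theorems in the defect classes -/

namespace Pool.Agent.W497.FS

open Polynomial

variable {α : Type*} {H : SimpleGraph α} [DecidableEq α]

theorem FP_join {A B : Finset α} (hAB : Full H A B) : FP H (A ∪ B) = FP H A * FP H B :=
  fe_join hAB _

theorem FP_empty : FP H (∅ : Finset α) = 1 := fe_empty _

/-- a prime complex of rank at least two and small defect has a vertex with prime link and few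
non-neighbours -/
theorem exists_small {d k : ℕ} {W : Finset α} (h : NP H (d + 2) W) (hp : Prm H W)
    (hk : W.card + 1 ≤ 3 * (d + 2) + k) :
    ∃ v ∈ W, Prm H (lk H W v) ∧ (nn H W v).card ≤ k + 2 := by
  obtain ⟨v, hv, hpv⟩ := exists_prime_link h hp
  refine ⟨v, hv, hpv, ?_⟩
  have h1 := Prm.three_mul_le (h.lk hv) hpv
  have h2 := card_eq_lk_nn (H := H) hv
  omega

/-- **`γ₂ ≥ 0` for defect at most one** -/
theorem FP_mem_three {d : ℕ} {W : Finset α} (h : NP H d W) (hE : Eul H d W)
    (hδ : W.card + (comps H W).card ≤ 3 * d + 1) : FP H W ∈ GT 3 d := by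
  revert hδ
  refine join_induction' (H := H) (P := fun d W => W.card + (comps H W).card ≤ 3 * d + 1 →
    FP H W ∈ GT 3 d) ?_ ?_ ?_ h hE
  · intro _
    rw [FP_empty]
    exact one_mem_GT 3
  · intro d W h hE hp ih hδ
    rcases d with _ | d
    · have := FP_mem_two h hE
      exact GT_of_lt (t := 2) (by norm_num) 3 this
    rw [comps_prm hp, Finset.card_singleton] at hδ
    obtain ⟨v, hv, hpv, hm⟩ := exists_small (k := 1) h hp (by omega)
    rw [FP_vertex hE hv]
    have hlt : (lk H W v).card < W.card := by
      have := card_eq_lk_nn (H := H) hv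
      omega
    have hd := h.defect_lk v hv
    rw [comps_prm hp, Finset.card_singleton] at hd
    have h1 := ih _ _ (h.lk hv) (hE.lk_succ hv) hlt (by omega)
    refine add_mem (GT_y h1) ?_
    have h2 := GT_w (Bk_mem_two h hE (by omega))
    have h23 : (2 : ℕ∞) + 1 = 3 := by norm_num
    rwa [h23] at h2
  · intro d₁ d₂ A B hA hB _ _ _ hAB h1 h2 hδ
    rw [card_comps_union hAB, Finset.card_union_of_disjoint hAB.disjoint] at hδ
    have k1 := hA.three_mul_le
    have k2 := hB.three_mul_le
    rw [FP_join hAB]
    exact GT_mul (h1 (by omega)) (h2 (by omega))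

/-- the Charney-Davis quantity `∑ (-1/2)^|σ|` -/
noncomputable def lam (H : SimpleGraph α) (W : Finset α) : ℚ := fe H W (-1 / 2 : ℚ)

theorem lam_join {A B : Finset α} (hAB : Full H A B) :
    lam H (A ∪ B) = lam H A * lam H B := fe_join hAB _

theorem lam_empty : lam H (∅ : Finset α) = 1 := fe_empty _

theorem lam_odd {d : ℕ} {W : Finset α} (hE : Eul H d W) (hd : Odd d) : lam H W = 0 := by
  have h := hE.ds (-1 / 2 : ℚ)
  rw [hd.neg_one_pow] at h
  have h2 : (-1 : ℚ) - -1 / 2 = -1 / 2 := by norm_num
  rw [h2] at h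
  rw [lam]
  linarith

/-- the vertex formula for the Charney-Davis quantity -/
theorem lam_vertex {d : ℕ} {W : Finset α} (hE : Eul H d W) {v : α} (hv : v ∈ W) :
    lam H W = (-1 / 4) * ∑ κ ∈ cl H (nn H W v),
      (-1) ^ κ.card * sj (-1 / 2 : ℚ) (κ.card - 1) * lam H (lkF H W κ) := by
  have h := fe_vertex hE hv (-1 / 2 : ℚ)
  have h1 : (1 : ℚ) + 2 * (-1 / 2) = 0 := by norm_num
  have h2 : (-1 / 2 : ℚ) * (1 + -1 / 2) = -1 / 4 := by norm_num
  rw [h1, h2, zero_mul, zero_add] at h
  exact h

theorem lam_vertex_small {d : ℕ} {W : Finset α} (hE : Eul H d W) {v : α} (hv : v ∈ W)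
    (hm : ∀ κ ∈ cl H (nn H W v), κ.card ≤ 3) :
    lam H W = (-1 / 4) * ∑ κ ∈ (cl H (nn H W v)).filter (fun κ => κ.card = 2),
      lam H (lkF H W κ) := by
  rw [lam_vertex hE hv, Finset.sum_filter]
  congr 1
  refine Finset.sum_congr rfl (fun κ hκ => ?_)
  have h3 := hm κ hκ
  have hcases : κ.card = 0 ∨ κ.card = 1 ∨ κ.card = 2 ∨ κ.card = 3 := by omega
  rcases hcases with hc | hc | hc | hc
  · rw [hc]; simp [sj_zero]
  · rw [hc]; simp [sj_zero]
  · rw [hc]; simp [sj_one]
  · rw [hc]
    have : sj (-1 / 2 : ℚ) (3 - 1) = 0 := by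
      rw [show 3 - 1 = 2 from rfl, sj_two]; norm_num
    rw [this]; simp

/-- **Charney-Davis for defect at most one** -/
theorem cd_defect_one {d : ℕ} {W : Finset α} (h : NP H d W) (hE : Eul H d W)
    (hδ : W.card + (comps H W).card ≤ 3 * d + 1) (n : ℕ) (hn : d = 2 * n) :
    0 ≤ (-1) ^ n * lam H W := by
  refine join_induction' (H := H) (P := fun d W => ∀ (n : ℕ) (_ : d = 2 * n),
    W.card + (comps H W).card ≤ 3 * d + 1 → 0 ≤ (-1) ^ n * lam H W) ?_ ?_ ?_ h hE n hn hδ
  · intro n hn _
    obtain rfl : n = 0 := by omega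
    rw [lam_empty]; norm_num
  · intro d W h hE hp ih n hn hδ
    obtain ⟨n, rfl⟩ : ∃ k, n = k + 1 := ⟨n - 1, by omega⟩
    obtain rfl : d = 2 * n + 1 := by omega
    rw [comps_prm hp, Finset.card_singleton] at hδ
    obtain ⟨v, hv, hpv, hm⟩ := exists_small (k := 1) (d := 2 * n) h hp (by omega)
    rw [lam_vertex_small hE hv (fun κ hκ =>
      (Finset.card_le_card (mem_cl.1 hκ).1).trans hm)]
    have e1 : (-1 : ℚ) ^ (n + 1) * (-1 / 4 * ∑ κ ∈ (cl H (nn H W v)).filter
        (fun κ => κ.card = 2), lam H (lkF H W κ)) =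
        1 / 4 * ∑ κ ∈ (cl H (nn H W v)).filter (fun κ => κ.card = 2),
          (-1) ^ n * lam H (lkF H W κ) := by
      rw [← Finset.mul_sum, pow_succ]; ring
    rw [e1]
    refine mul_nonneg (by norm_num) (Finset.sum_nonneg (fun κ hκ => ?_))
    obtain ⟨hκ1, hκ2⟩ := Finset.mem_filter.1 hκ
    obtain ⟨e, he, hNP, hdef, hcard⟩ := h.lkF (cl_mono nn_subset hκ1)
    obtain rfl : e = 2 * n := by omega
    rw [comps_prm hp, Finset.card_singleton] at hdef
    exact ih _ _ hNP (hE.lkF_rank (cl_mono nn_subset hκ1) he) (by omega) n rfl (by omega)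
  · intro d₁ d₂ A B hA hB eA eB _ hAB h1 h2 n hn hδ
    rw [card_comps_union hAB, Finset.card_union_of_disjoint hAB.disjoint] at hδ
    have k1 := hA.three_mul_le
    have k2 := hB.three_mul_le
    rw [lam_join hAB]
    rcases Nat.even_or_odd (d₁ + 1) with ho | ho
    · obtain ⟨a, ha⟩ := ho
      obtain ⟨b, hb⟩ : ∃ b, d₂ + 1 = 2 * b := ⟨n - a, by omega⟩
      have p1 := h1 a (by omega) (by omega)
      have p2 := h2 b (by omega) (by omega)
      have : n = a + b := by omega
      rw [this, pow_add]
      have := mul_nonneg p1 p2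
      calc (0 : ℚ) ≤ _ := this
        _ = _ := by ring
    · rw [lam_odd eA ho, zero_mul, mul_zero]

/-- a vertex in the link of `v`: the bracket of the link of `u` -/
theorem Bk_lk {W : Finset α} {u v : α} :
    Bk H (lk H W u) v = ∑ κ ∈ (cl H (nn H W v)).filter (fun κ => u ∈ lkF H {u} κ),
      (-1) ^ κ.card * sj X (κ.card - 1) * FP H (lk H (lkF H W κ) u) := by
  rw [Bk]
  refine Finset.sum_congr ?_ ?_
  · ext κ
    rw [Finset.mem_filter, mem_cl, mem_cl, mem_lkF]
    constructor
    · rintro ⟨h1, h2⟩
      refine ⟨⟨fun z hz => ?_, h2⟩, Finset.mem_singleton_self u, fun z hz => ?_⟩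
      · have := mem_nn.1 (h1 hz)
        exact mem_nn.2 ⟨lk_subset this.1, this.2⟩
      · exact (mem_lk.1 (mem_nn.1 (h1 hz)).1).2.symm
    · rintro ⟨⟨h1, h2⟩, _, h3⟩
      refine ⟨fun z hz => ?_, h2⟩
      have := mem_nn.1 (h1 hz)
      exact mem_nn.2 ⟨mem_lk.2 ⟨this.1, (h3 z hz).symm⟩, this.2⟩
  · intro κ _
    congr 2
    ext z
    simp only [mem_lkF, mem_lk]
    tauto

theorem cl_pair {a b : α} (hab : H.Adj a b) :
    cl H ({a, b} : Finset α) = {∅, {a}, {b}, {a, b}} := by
  have hne := hab.ne
  ext σ
  rw [mem_cl]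
  simp only [Finset.mem_insert, Finset.mem_singleton]
  constructor
  · rintro ⟨h1, -⟩
    by_cases ha : a ∈ σ <;> by_cases hb : b ∈ σ
    · right; right; right
      apply Finset.Subset.antisymm h1
      intro z hz
      rcases Finset.mem_insert.1 hz with h | h
      · rwa [h]
      · rwa [Finset.mem_singleton.1 h]
    · right; left
      ext z
      rw [Finset.mem_singleton]
      constructor
      · intro hz
        rcases Finset.mem_insert.1 (h1 hz) with h | h
        · exact h
        · exact absurd ((Finset.mem_singleton.1 h) ▸ hz) hb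
      · rintro rfl; exact ha
    · right; right; left
      ext z
      rw [Finset.mem_singleton]
      constructor
      · intro hz
        rcases Finset.mem_insert.1 (h1 hz) with h | h
        · exact absurd (h ▸ hz) ha
        · exact Finset.mem_singleton.1 h
      · rintro rfl; exact hb
    · left
      apply Finset.eq_empty_of_forall_notMem
      intro z hz
      rcases Finset.mem_insert.1 (h1 hz) with h | h
      · exact ha (h ▸ hz)
      · exact hb ((Finset.mem_singleton.1 h) ▸ hz)
  · rintro (rfl | rfl | rfl | rfl)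
    · exact ⟨Finset.empty_subset _, fun x hx => absurd hx (Finset.notMem_empty x)⟩
    · exact mem_cl.1 (cl_of_subset (singleton_mem_cl (Finset.mem_insert_self a {b}))
        (Finset.Subset.refl _))
    · exact mem_cl.1 (singleton_mem_cl (Finset.mem_insert_of_mem (Finset.mem_singleton_self b)))
    · refine ⟨Finset.Subset.refl _, fun x hx z hz hxz => ?_⟩
      rw [Finset.mem_insert, Finset.mem_singleton] at hx hz
      rcases hx with rfl | rfl <;> rcases hz with rfl | rfl
      · exact absurd rfl hxz
      · exact hab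
      · exact hab.symm
      · exact absurd rfl hxz

theorem cl_pair_not {a b : α} (hne : a ≠ b) (hab : ¬ H.Adj a b) :
    cl H ({a, b} : Finset α) = {∅, {a}, {b}} := by
  ext σ
  rw [mem_cl]
  simp only [Finset.mem_insert, Finset.mem_singleton]
  constructor
  · rintro ⟨h1, h2⟩
    by_cases ha : a ∈ σ <;> by_cases hb : b ∈ σ
    · exact absurd (h2 a ha b hb hne) hab
    · right; left
      ext z
      rw [Finset.mem_singleton]
      constructor
      · intro hz
        rcases Finset.mem_insert.1 (h1 hz) with h | h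
        · exact h
        · exact absurd ((Finset.mem_singleton.1 h) ▸ hz) hb
      · rintro rfl; exact ha
    · right; right
      ext z
      rw [Finset.mem_singleton]
      constructor
      · intro hz
        rcases Finset.mem_insert.1 (h1 hz) with h | h
        · exact absurd (h ▸ hz) ha
        · exact Finset.mem_singleton.1 h
      · rintro rfl; exact hb
    · left
      apply Finset.eq_empty_of_forall_notMem
      intro z hz
      rcases Finset.mem_insert.1 (h1 hz) with h | h
      · exact ha (h ▸ hz)
      · exact hb ((Finset.mem_singleton.1 h) ▸ hz)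
  · rintro (rfl | rfl | rfl)
    · exact ⟨Finset.empty_subset _, fun x hx => absurd hx (Finset.notMem_empty x)⟩
    · exact mem_cl.1 (singleton_mem_cl (Finset.mem_insert_self a {b}))
    · exact mem_cl.1 (singleton_mem_cl (Finset.mem_insert_of_mem (Finset.mem_singleton_self b)))

/-- **defect zero: Gal's conjecture and monotonicity** -/
theorem gal_defect_zero {d : ℕ} {W : Finset α} (h : NP H d W) (hE : Eul H d W)
    (hδ : W.card + (comps H W).card ≤ 3 * d) :
    FP H W ∈ GT ⊤ d ∧ ∀ u ∈ W, FP H W - y * FP H (lk H W u) ∈ GT ⊤ d := by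
  revert hδ
  refine join_induction' (H := H) (P := fun d W => W.card + (comps H W).card ≤ 3 * d →
    FP H W ∈ GT ⊤ d ∧ ∀ u ∈ W, FP H W - y * FP H (lk H W u) ∈ GT ⊤ d) ?_ ?_ ?_ h hE
  · intro _
    rw [FP_empty]
    exact ⟨one_mem_GT _, fun u hu => absurd hu (Finset.notMem_empty u)⟩
  · intro d W h hE hp ih hδ
    rcases d with _ | d
    · refine ⟨GT_of_lt (t := 2) (by norm_num) ⊤ (FP_mem_two h hE), fun u hu => ?_⟩
      exact GT_of_lt (t := 2) (by norm_num) ⊤ (mono_two h hE hu)
    have hδ' := hδ
    rw [comps_prm hp, Finset.card_singleton] at hδ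
    obtain ⟨v, hv, hpv, hm⟩ := exists_small (k := 0) h hp (by omega)
    have hm2 : (nn H W v).card = 2 := by
      have := Prm.two_le_nn h hp hv
      omega
    obtain ⟨a, b, hab, hM⟩ := Finset.card_eq_two.1 hm2
    -- the induction hypothesis for links
    have ihF : ∀ κ ∈ cl H W, κ.Nonempty → ∀ e, e + κ.card = d + 2 →
        FP H (lkF H W κ) ∈ GT ⊤ e ∧ ∀ u ∈ lkF H W κ,
          FP H (lkF H W κ) - y * FP H (lk H (lkF H W κ) u) ∈ GT ⊤ e := by
      intro κ hκ hκne e he
      obtain ⟨e', he', hNP, hdef, hcard⟩ := h.lkF hκ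
      obtain rfl : e' = e := by omega
      have := Finset.card_pos.2 hκne
      exact ih _ _ hNP (hE.lkF_rank hκ he') (by omega) (by omega)
    have ih1 : ∀ u ∈ W, FP H (lk H W u) ∈ GT ⊤ (d + 1) ∧ ∀ z ∈ lk H W u,
          FP H (lk H W u) - y * FP H (lk H (lk H W u) z) ∈ GT ⊤ (d + 1) := by
      intro u hu
      have := ihF {u} (singleton_mem_cl hu) (Finset.singleton_nonempty u) (d + 1) (by simp)
      rwa [lkF_singleton] at this
    have haM : a ∈ nn H W v := by rw [hM]; simp
    have hbM : b ∈ nn H W v := by rw [hM]; simp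
    have haW := nn_subset haM
    have hbW := nn_subset hbM
    have hadj : H.Adj a b := by
      by_contra hn
      have := euler_nn hE hv
      rw [hM, cl_pair_not hab hn] at this
      have h1 : (∅ : Finset α) ∉ ({{a}, {b}} : Finset (Finset α)) := by simp
      have h2 : ({a} : Finset α) ∉ ({{b}} : Finset (Finset α)) := by simp [hab]
      rw [Finset.sum_insert h1, Finset.sum_insert h2, Finset.sum_singleton] at this
      simp at this
    have habcl : ({a, b} : Finset α) ∈ cl H W := by
      refine cl_mono nn_subset (H := H) (V := nn H W v) ?_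
      rw [hM, cl_pair hadj]; simp
    have hn1 : (∅ : Finset α) ∉ ({{a}, {b}, {a, b}} : Finset (Finset α)) := by
      intro hmem
      simp only [Finset.mem_insert, Finset.mem_singleton] at hmem
      rcases hmem with h | h | h
      · exact Finset.singleton_ne_empty a h.symm
      · exact Finset.singleton_ne_empty b h.symm
      · exact Finset.insert_ne_empty a {b} h.symm
    have hn2 : ({a} : Finset α) ∉ ({{b}, {a, b}} : Finset (Finset α)) := by
      simp only [Finset.mem_insert, Finset.mem_singleton, not_or]
      refine ⟨fun h => hab (Finset.singleton_injective h), fun h => ?_⟩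
      have : b ∈ ({a} : Finset α) := by rw [h]; simp
      exact hab (Finset.mem_singleton.1 this).symm
    have hn3 : ({b} : Finset α) ∉ ({{a, b}} : Finset (Finset α)) := by
      simp only [Finset.mem_singleton]
      intro h
      have : a ∈ ({b} : Finset α) := by rw [h]; simp
      exact hab (Finset.mem_singleton.1 this)
    have hcab : ({a, b} : Finset α).card = 2 := Finset.card_pair hab
    have hBk : Bk H W v = FP H (lkF H W {a, b}) := by
      rw [Bk, hM, cl_pair hadj, Finset.sum_insert hn1, Finset.sum_insert hn2,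
        Finset.sum_insert hn3, Finset.sum_singleton, hcab]
      simp [sj_zero, sj_one]
    have hlink : FP H (lk H W v) = FP H (lk H W a) + FP H (lk H W b) -
        y * FP H (lkF H W {a, b}) := by
      have := fe_link hE hv (X : ℤ[X])
      rw [hM, cl_pair hadj, Finset.sum_insert hn1, Finset.sum_insert hn2,
        Finset.sum_insert hn3, Finset.sum_singleton, hcab] at this
      simp only [Finset.card_empty, Finset.card_singleton, sj_zero, sj_one, sj_two,
        lkF_singleton] at this
      rw [FP_eq, this, y]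
      simp only [FP_eq]
      ring
    have hFv := FP_vertex hE hv
    rw [hBk] at hFv
    obtain ⟨ihab, ihab'⟩ := ihF {a, b} habcl ⟨a, by simp⟩ d (by rw [hcab])
    have htop : (⊤ : ℕ∞) + 1 = ⊤ := rfl
    have hw : ∀ p ∈ GT ⊤ d, w * p ∈ GT ⊤ (d + 2) := fun p hp => by
      have := GT_w hp
      rwa [htop] at this
    refine ⟨?_, fun u hu => ?_⟩
    · rw [hFv]
      exact add_mem (GT_y (ih1 v hv).1) (hw _ ihab)
    · by_cases huv : u = v
      · subst huv
        rw [hFv, add_sub_cancel_left]
        exact hw _ ihab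
      by_cases huM : u ∈ nn H W v
      · -- u = a or u = b
        have key : ∀ p q : α, q ∈ W → p ∈ lk H W q →
            FP H (lk H W v) = FP H (lk H W p) + FP H (lk H W q) - y * FP H (lkF H W {a, b}) →
            lkF H W {a, b} = lk H (lk H W q) p →
            FP H W - y * FP H (lk H W p) ∈ GT ⊤ (d + 2) := by
          intro p q hq hp hl he
          have e1 : FP H W - y * FP H (lk H W p) =
              y * (FP H (lk H W q) - y * FP H (lk H (lk H W q) p)) +
                w * FP H (lkF H W {a, b}) := by
            rw [hFv, hl, ← he]; ring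
          rw [e1]
          exact add_mem (GT_y ((ih1 q hq).2 p hp)) (hw _ ihab)
        have e2 : ({a, b} : Finset α) = insert a {b} := rfl
        have e3 : ({a, b} : Finset α) = insert b {a} := Finset.pair_comm a b
        rw [hM, Finset.mem_insert, Finset.mem_singleton] at huM
        rcases huM with rfl | rfl
        · exact key u b hbW (mem_lk.2 ⟨haW, hadj.symm⟩) hlink (by
            rw [e2, lkF_insert, lkF_singleton])
        · exact key u a haW (mem_lk.2 ⟨hbW, hadj⟩) (by rw [hlink]; ring) (by
            rw [e3, lkF_insert, lkF_singleton])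
      · -- u in the link of v
        have huadj : H.Adj v u := by
          by_contra hn
          exact huM (mem_nn.2 ⟨hu, huv, hn⟩)
        have huL : u ∈ lk H W v := mem_lk.2 ⟨hu, huadj⟩
        have hvU : v ∈ lk H W u := mem_lk.2 ⟨hv, huadj.symm⟩
        have hFu := FP_vertex (hE.lk_succ hu) hvU
        have hcomm : lk H (lk H W u) v = lk H (lk H W v) u := by
          ext z; simp only [mem_lk]; tauto
        have hBu : Bk H (lk H W u) v = if u ∈ lkF H W {a, b} then
            FP H (lk H (lkF H W {a, b}) u) else 0 := by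
          rw [Bk_lk, Finset.sum_filter, hM, cl_pair hadj, Finset.sum_insert hn1,
            Finset.sum_insert hn2, Finset.sum_insert hn3, Finset.sum_singleton, hcab]
          have e4 : (u ∈ lkF H {u} {a, b}) ↔ u ∈ lkF H W {a, b} := by
            rw [mem_lkF, mem_lkF]
            simp [hu]
          simp only [e4]
          simp [sj_zero, sj_one]
        rw [hFv, hFu, hBu, hcomm]
        have e5 : y * FP H (lk H W v) + w * FP H (lkF H W {a, b}) -
            y * (y * FP H (lk H (lk H W v) u) + w * (if u ∈ lkF H W {a, b} then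
              FP H (lk H (lkF H W {a, b}) u) else 0)) =
            y * (FP H (lk H W v) - y * FP H (lk H (lk H W v) u)) +
            w * (FP H (lkF H W {a, b}) - y * (if u ∈ lkF H W {a, b} then
              FP H (lk H (lkF H W {a, b}) u) else 0)) := by ring
        rw [e5]
        refine add_mem (GT_y ((ih1 v hv).2 u huL)) (hw _ ?_)
        split_ifs with hc
        · exact ihab' u hc
        · rw [mul_zero, sub_zero]; exact ihab
  · intro d₁ d₂ A B hA hB _ _ _ hAB h1 h2 hδ
    rw [card_comps_union hAB, Finset.card_union_of_disjoint hAB.disjoint] at hδ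
    have k1 := hA.three_mul_le
    have k2 := hB.three_mul_le
    obtain ⟨p1, q1⟩ := h1 (by omega)
    obtain ⟨p2, q2⟩ := h2 (by omega)
    rw [FP_join hAB]
    refine ⟨GT_mul p1 p2, fun u hu => ?_⟩
    rcases Finset.mem_union.1 hu with hu | hu
    · have hf : Full H (lk H A u) B := hAB.mono lk_subset (Finset.Subset.refl B)
      rw [hAB.lk_left hu, FP_join hf]
      have : FP H A * FP H B - y * (FP H (lk H A u) * FP H B) =
          (FP H A - y * FP H (lk H A u)) * FP H B := by ring
      rw [this]
      exact GT_mul (q1 u hu) p2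
    · have hf : Full H A (lk H B u) := hAB.mono (Finset.Subset.refl A) lk_subset
      rw [hAB.lk_right hu, FP_join hf]
      have : FP H A * FP H B - y * (FP H A * FP H (lk H B u)) =
          FP H A * (FP H B - y * FP H (lk H B u)) := by ring
      rw [this]
      exact GT_mul p1 (q2 u hu)

end Pool.Agent.W497.FS
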